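import Pool.Agent.H212WH.W0

set_option autoImplicit false

namespace Pool.Agent.H212WH

open MeasureTheory Set Filter Topology Metric
open scoped ContDiff

lemma pf_Ip_base_pos {n : ℕ} (x : E n) : 0 < 1 + ‖x‖ ^ 2 := by positivity

lemma pf_Ip_integrable {n : ℕ} {p : ℝ} (hp : p < -(n : ℝ) / 2) : Integrable (wt n p) := by
  have h := integrable_rpow_neg_one_add_norm_sq (E := E n) (μ := volume) (r := -2 * p) (by
    rw [finrank_euclideanSpace_fin]; linarith)
  have e : wt n p = fun x : E n => ((1 : ℝ) + ‖x‖ ^ 2) ^ (-(-2 * p) / 2) := by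
    funext x
    unfold wt
    congr 1
    ring
  rw [e]
  exact h

lemma pf_Ip_contDiff (n : ℕ) (p : ℝ) : ContDiff ℝ 1 (wt n p) := by
  unfold wt
  apply ContDiff.rpow_const_of_ne
  · exact contDiff_const.add (contDiff_norm_sq ℝ)
  · intro x
    exact (pf_Ip_base_pos x).ne'

lemma pf_Ip_hasFDerivAt {n : ℕ} (p : ℝ) (x : E n) :
    HasFDerivAt (wt n p) ((p * (1 + ‖x‖ ^ 2) ^ (p - 1)) • ((2 : ℕ) • innerSL ℝ x)) x := by
  have h1 : HasFDerivAt (fun x : E n => 1 + ‖x‖ ^ 2) ((2 : ℕ) • innerSL ℝ x) x :=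
    ((hasStrictFDerivAt_norm_sq x).hasFDerivAt).const_add 1
  exact h1.rpow_const (Or.inl (pf_Ip_base_pos x).ne')

lemma pf_Ip_fderiv {n : ℕ} (p : ℝ) (x : E n) :
    fderiv ℝ (wt n p) x x = 2 * p * (wt n p x - wt n (p - 1) x) := by
  rw [(pf_Ip_hasFDerivAt p x).fderiv]
  simp only [_root_.smul_apply, innerSL_apply_apply, real_inner_self_eq_norm_sq,
    smul_eq_mul, nsmul_eq_mul]
  have h := pf_Ip_base_pos x
  have h2 : wt n p x = (1 + ‖x‖ ^ 2) ^ (p - 1) * (1 + ‖x‖ ^ 2) := by
    unfold wt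
    rw [← Real.rpow_add_one h.ne']
    congr 1
    ring
  have h3 : wt n (p - 1) x = (1 + ‖x‖ ^ 2) ^ (p - 1) := rfl
  rw [h2, h3]
  push_cast
  ring

theorem pf_Ip (h1 : S_ibp2) : S_Ip := by
  intro n p hn hp
  have hI := pf_Ip_integrable hp
  have hI' : Integrable (wt n (p - 1)) := pf_Ip_integrable (by linarith)
  refine ⟨hI, ?_, ?_⟩
  · unfold Ip
    have hnn : (0 : E n → ℝ) ≤ wt n p := fun x => (Real.rpow_pos_of_pos (pf_Ip_base_pos x) p).le
    rw [integral_pos_iff_support_of_nonneg hnn hI]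
    have hs : Function.support (fun x => wt n p x) = univ := by
      ext x
      simp only [Function.mem_support, mem_univ, iff_true]
      exact (Real.rpow_pos_of_pos (pf_Ip_base_pos x) p).ne'
    rw [hs]
    exact Measure.measure_univ_pos.2 (NeZero.ne _)
  · have hfd : (fun x => fderiv ℝ (wt n p) x x) =
        fun x => 2 * p * (wt n p x - wt n (p - 1) x) := by
      funext x
      exact pf_Ip_fderiv p x
    have hint : Integrable (fun x => fderiv ℝ (wt n p) x x) := by
      rw [hfd]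
      exact (hI.sub hI').const_mul _
    have h2 := h1 n (wt n p) (pf_Ip_contDiff n p) hI hint
    rw [integral_add (hI.const_mul _) hint, hfd, integral_const_mul, integral_const_mul,
      integral_sub hI hI'] at h2
    change (n : ℝ) * Ip n p + 2 * p * (Ip n p - Ip n (p - 1)) = 0 at h2
    linarith

end Pool.Agent.H212WH
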