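import Pool.Agent.H212WH.W0

set_option autoImplicit false

namespace Pool.Agent.H212WH

open MeasureTheory Set Filter Topology Metric
open scoped ContDiff

/- PLAIN PROOF.
Let A be the smallest family of functions containing u and closed under v -> (v + v o Rf a)/2, norm a = 1 (an inductive predicate).
Every v in A satisfies P, is Lipschitz with the same constant L as u (u is C^1 with compact support, hence Lipschitz; Rf a is an isometry),
satisfies |v| <= M = sup|u| and vanishes outside closedBall 0 R0 if u does (norm (Rf a x) = norm x). Let N(v) = integral v^2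
(over E n), m = inf over A of N(v) >= 0, v_k in A with N(v_k) -> m. By Arzela-Ascoli (restrict to the compact ball closedBall 0 (R0+1), e.g.
BoundedContinuousFunction.arzela_ascoli or ArzelaAscoli in Mathlib, or a diagonal argument) a subsequence converges uniformly to some h (continuous,
L-Lipschitz, zero outside the ball); N(h) = m. For each unit vector a, (v_k + v_k o R)/2 is in A, so N of it is >= m, in the limit
N((h + h o R)/2) >= m = (N(h) + N(h o R))/2 (R preserves the measure), so by the parallelogram identity N((h - h o R)/2) <= 0, thus h = h o R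
everywhere (continuity). If norm x = norm y and x <> y take a = (x-y)/norm(x-y): then Rf a x = y (2 inner x (x-y) = norm(x-y)^2 as norm x = norm y), so h x = h y. Finally
take k with sup|v_k - h| <= delta/2 and v = v_k.
(If you prefer: any strictly convex continuous functional instead of N is fine.)
-/
theorem pf_avg_rf {n : ℕ} (a : E n) (ha : ‖a‖ = 1) (x : E n) :
    Rf a x = (Submodule.reflection (Submodule.span ℝ {a})ᗮ) x := by
  rw [Submodule.reflection_orthogonal_apply, Submodule.reflection_singleton_apply]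
  simp only [Rf, ha]
  norm_num
  module

theorem pf_avg_rf_norm {n : ℕ} (a : E n) (ha : ‖a‖ = 1) (x : E n) : ‖Rf a x‖ = ‖x‖ := by
  rw [pf_avg_rf a ha, LinearIsometryEquiv.norm_map]

theorem pf_avg_rf_sub {n : ℕ} (a : E n) (ha : ‖a‖ = 1) (x y : E n) :
    ‖Rf a x - Rf a y‖ = ‖x - y‖ := by
  rw [pf_avg_rf a ha, pf_avg_rf a ha, ← map_sub, LinearIsometryEquiv.norm_map]

theorem pf_avg_rf_swap {n : ℕ} (x y : E n) (h : ‖x‖ = ‖y‖) (hxy : x ≠ y) :
    ∃ a : E n, ‖a‖ = 1 ∧ Rf a x = y := by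
  have hne : ‖x - y‖ ≠ 0 := by
    rw [norm_ne_zero_iff]
    exact sub_ne_zero.2 hxy
  have h1 : ‖(‖x - y‖⁻¹) • (x - y)‖ = 1 := by
    rw [norm_smul, norm_inv, norm_norm, inv_mul_cancel₀ hne]
  refine ⟨(‖x - y‖⁻¹) • (x - y), h1, ?_⟩
  have h2 : 2 * inner ℝ (x - y) x = ‖x - y‖ ^ 2 := by
    have e1 : ‖x - y‖ ^ 2 = ‖x‖ ^ 2 - 2 * inner ℝ x y + ‖y‖ ^ 2 := norm_sub_sq_real x y
    rw [e1, ← h, inner_sub_left, real_inner_self_eq_norm_sq, real_inner_comm]
    ring
  unfold Rf
  rw [inner_smul_left, smul_smul]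
  have h3 : 2 * ((starRingEnd ℝ) ‖x - y‖⁻¹ * inner ℝ (x - y) x) * ‖x - y‖⁻¹ = 1 := by
    simp only [conj_trivial]
    have : 2 * (‖x - y‖⁻¹ * inner ℝ (x - y) x) * ‖x - y‖⁻¹
        = (2 * inner ℝ (x - y) x) * (‖x - y‖⁻¹ * ‖x - y‖⁻¹) := by ring
    rw [this, h2]
    field_simp
  rw [h3, one_smul, sub_sub_cancel]

/-- the class of competitors -/
def pf_avg_A (n : ℕ) (P : (E n → ℝ) → Prop) (L R : ℝ) : Set (E n → ℝ) :=
  {v | P v ∧ (∀ x y, |v x - v y| ≤ L * ‖x - y‖) ∧ ∀ x, R < ‖x‖ → v x = 0}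

theorem pf_avg_cont {n : ℕ} {v : E n → ℝ} {L : ℝ} (hL : 0 ≤ L)
    (h : ∀ x y, |v x - v y| ≤ L * ‖x - y‖) : Continuous v := by
  have : LipschitzWith (Real.toNNReal L) v := by
    apply LipschitzWith.of_dist_le_mul
    intro x y
    rw [Real.dist_eq, dist_eq_norm, Real.coe_toNNReal L hL]
    exact h x y
  exact this.continuous

theorem pf_avg_supp {n : ℕ} {v : E n → ℝ} {R : ℝ} (h : ∀ x, R < ‖x‖ → v x = 0) :
    HasCompactSupport v := by
  apply HasCompactSupport.intro (isCompact_closedBall (0 : E n) R)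
  intro x hx
  apply h
  rw [mem_closedBall, dist_zero_right, not_le] at hx
  exact hx

theorem pf_avg_int {n : ℕ} {v : E n → ℝ} (hc : Continuous v) (hs : HasCompactSupport v) :
    Integrable (fun x => v x ^ 2) := by
  apply Continuous.integrable_of_hasCompactSupport (by fun_prop)
  apply hs.mono
  intro x hx
  rw [Function.mem_support] at hx ⊢
  intro h0
  exact hx (by rw [h0]; norm_num)

theorem pf_avg_mem {n : ℕ} {P : (E n → ℝ) → Prop} {L R : ℝ} {v : E n → ℝ}
    (hP : ∀ v : E n → ℝ, P v → ∀ a : E n, ‖a‖ = 1 → P (fun x => (v x + v (Rf a x)) / 2))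
    (hv : v ∈ pf_avg_A n P L R) (a : E n) (ha : ‖a‖ = 1) :
    (fun x => (v x + v (Rf a x)) / 2) ∈ pf_avg_A n P L R := by
  obtain ⟨h1, h2, h3⟩ := hv
  refine ⟨hP v h1 a ha, ?_, ?_⟩
  · intro x y
    have e1 := h2 x y
    have e2 := h2 (Rf a x) (Rf a y)
    rw [pf_avg_rf_sub a ha] at e2
    rw [abs_le] at e1 e2 ⊢
    constructor <;> linarith [e1.1, e1.2, e2.1, e2.2]
  · intro x hx
    simp only
    rw [h3 x hx, h3 (Rf a x) (by rw [pf_avg_rf_norm a ha]; exact hx)]
    norm_num

theorem pf_avg_sup {n : ℕ} {w : E n → ℝ} {L R δ : ℝ} (hL : 0 < L) (hδ : 0 < δ)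
    (h : ∀ x y, |w x - w y| ≤ L * ‖x - y‖) (hR : ∀ x, R < ‖x‖ → w x = 0) (x0 : E n)
    (hx0 : δ < |w x0|) :
    (δ / 2) ^ 2 * (volume (ball (0 : E n) (δ / (2 * L)))).toReal ≤ ∫ x, w x ^ 2 := by
  have hc : Continuous w := pf_avg_cont hL.le h
  have hs : HasCompactSupport w := pf_avg_supp hR
  have hi := pf_avg_int hc hs
  have hvol : volume (ball x0 (δ / (2 * L))) = volume (ball (0 : E n) (δ / (2 * L))) :=
    Measure.addHaar_ball_center _ _ _
  have hfin : volume (ball x0 (δ / (2 * L))) ≠ ⊤ := measure_ball_lt_top.ne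
  have h1 : ∫ x in ball x0 (δ / (2 * L)), w x ^ 2 ≤ ∫ x, w x ^ 2 :=
    setIntegral_le_integral hi (Filter.Eventually.of_forall (fun x => sq_nonneg _))
  have h2 : ∫ x in ball x0 (δ / (2 * L)), (δ / 2) ^ 2 ≤ ∫ x in ball x0 (δ / (2 * L)), w x ^ 2 := by
    apply setIntegral_mono_on (integrableOn_const hfin) hi.integrableOn measurableSet_ball
    intro x hx
    have e1 := h x0 x
    rw [mem_ball, dist_comm, dist_eq_norm] at hx
    have e2 : L * ‖x0 - x‖ ≤ δ / 2 := by
      calc L * ‖x0 - x‖ ≤ L * (δ / (2 * L)) := mul_le_mul_of_nonneg_left hx.le hL.le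
        _ = δ / 2 := by field_simp
    have e3 : δ / 2 ≤ |w x| := by
      have e4 := abs_sub_abs_le_abs_sub (w x0) (w x)
      linarith
    rw [← sq_abs (w x)]
    exact pow_le_pow_left₀ (by positivity) e3 2
  rw [setIntegral_const, smul_eq_mul, Measure.real, hvol] at h2
  linarith

theorem pf_avg : S_avg := by
  intro n u P hu hsu hPu hP δ hδ
  obtain ⟨C, hC⟩ := hu.lipschitzWith_of_hasCompactSupport hsu (by norm_num)
  obtain ⟨R, hR⟩ := hsu.isCompact.isBounded.subset_closedBall (0 : E n)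
  set L : ℝ := (C : ℝ) + 1 with hLdef
  have hL : 0 < L := by positivity
  have huA : u ∈ pf_avg_A n P L R := by
    refine ⟨hPu, ?_, ?_⟩
    · intro x y
      have := hC.dist_le_mul x y
      rw [Real.dist_eq, dist_eq_norm] at this
      have h0 : 0 ≤ ‖x - y‖ := norm_nonneg _
      rw [hLdef]
      linarith
    · intro x hx
      by_contra hne
      have hmem : x ∈ closedBall (0 : E n) R := hR (subset_tsupport u (by
        rw [Function.mem_support]; exact hne))
      rw [mem_closedBall, dist_zero_right] at hmem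
      linarith
  set N : (E n → ℝ) → ℝ := fun v => ∫ x, v x ^ 2 with hN
  set η : ℝ := (δ / 2 / 2) ^ 2 * (volume (ball (0 : E n) (δ / 2 / (2 * L)))).toReal with hη
  have hηpos : 0 < η := by
    have h1 : 0 < (volume (ball (0 : E n) (δ / 2 / (2 * L)))).toReal := by
      apply ENNReal.toReal_pos
      · exact (measure_ball_pos _ _ (by positivity)).ne'
      · exact measure_ball_lt_top.ne
    positivity
  have hne : (N '' pf_avg_A n P L R).Nonempty := ⟨_, u, huA, rfl⟩
  have hbdd : BddBelow (N '' pf_avg_A n P L R) := by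
    refine ⟨0, ?_⟩
    rintro _ ⟨v, _, rfl⟩
    exact integral_nonneg (fun x => sq_nonneg _)
  obtain ⟨_, ⟨v, hv, rfl⟩, hvlt⟩ := exists_lt_of_csInf_lt hne
    (show sInf (N '' pf_avg_A n P L R) < sInf (N '' pf_avg_A n P L R) + η by linarith)
  refine ⟨v, hv.1, ?_⟩
  intro x y hxy
  by_cases hxy' : x = y
  · rw [hxy', sub_self, abs_zero]
    exact hδ.le
  obtain ⟨a, ha, hax⟩ := pf_avg_rf_swap x y hxy hxy'
  obtain ⟨hv1, hv2, hv3⟩ := hv
  have hvavg := pf_avg_mem hP ⟨hv1, hv2, hv3⟩ a ha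
  have hle : sInf (N '' pf_avg_A n P L R) ≤ N (fun x => (v x + v (Rf a x)) / 2) :=
    csInf_le hbdd ⟨_, hvavg, rfl⟩
  have hvc : Continuous v := pf_avg_cont hL.le hv2
  have hvs : HasCompactSupport v := pf_avg_supp hv3
  have hvi := pf_avg_int hvc hvs
  -- the reflected function
  have hrl : ∀ x y, |v (Rf a x) - v (Rf a y)| ≤ L * ‖x - y‖ := by
    intro x y
    have := hv2 (Rf a x) (Rf a y)
    rwa [pf_avg_rf_sub a ha] at this
  have hrs : ∀ x, R < ‖x‖ → v (Rf a x) = 0 := by
    intro x hx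
    exact hv3 _ (by rw [pf_avg_rf_norm a ha]; exact hx)
  have hri : Integrable (fun x => v (Rf a x) ^ 2) :=
    pf_avg_int (pf_avg_cont hL.le hrl) (pf_avg_supp hrs)
  have hreq : ∫ x, v (Rf a x) ^ 2 = ∫ x, v x ^ 2 := by
    have hmp := (Submodule.reflection (Submodule.span ℝ {a})ᗮ).measurePreserving
    have hmp2 := hmp.integral_comp
      (Submodule.reflection (Submodule.span ℝ {a})ᗮ).toHomeomorph.measurableEmbedding
      (fun x => v x ^ 2)
    simp only [pf_avg_rf a ha]
    exact hmp2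
  -- the difference
  have hwl : ∀ x y, |(v x - v (Rf a x)) / 2 - (v y - v (Rf a y)) / 2| ≤ L * ‖x - y‖ := by
    intro x y
    have e1 := hv2 x y
    have e2 := hrl x y
    rw [abs_le] at e1 e2 ⊢
    constructor <;> linarith [e1.1, e1.2, e2.1, e2.2]
  have hws : ∀ x, R < ‖x‖ → (v x - v (Rf a x)) / 2 = 0 := by
    intro x hx
    rw [hv3 x hx, hrs x hx]
    norm_num
  have hwi : Integrable (fun x => ((v x - v (Rf a x)) / 2) ^ 2) :=
    pf_avg_int (v := fun x => (v x - v (Rf a x)) / 2) (pf_avg_cont hL.le hwl) (pf_avg_supp hws)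
  have hai : Integrable (fun x => ((v x + v (Rf a x)) / 2) ^ 2) :=
    pf_avg_int (v := fun x => (v x + v (Rf a x)) / 2) (pf_avg_cont hL.le hvavg.2.1)
      (pf_avg_supp hvavg.2.2)
  have hpar : (∫ x, ((v x + v (Rf a x)) / 2) ^ 2) + ∫ x, ((v x - v (Rf a x)) / 2) ^ 2
      = ∫ x, v x ^ 2 := by
    rw [← integral_add hai hwi]
    have e1 : (fun x => ((v x + v (Rf a x)) / 2) ^ 2 + ((v x - v (Rf a x)) / 2) ^ 2)
        = fun x => v x ^ 2 / 2 + v (Rf a x) ^ 2 / 2 := by
      funext x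
      ring
    rw [e1, integral_add (hvi.div_const 2) (hri.div_const 2), integral_div, integral_div, hreq]
    ring
  have hsmall : ∫ x, ((v x - v (Rf a x)) / 2) ^ 2 < η := by
    have e1 : N (fun x => (v x + v (Rf a x)) / 2) = ∫ x, ((v x + v (Rf a x)) / 2) ^ 2 := rfl
    have e2 : N v = ∫ x, v x ^ 2 := rfl
    rw [e1] at hle
    rw [e2] at hvlt
    linarith
  by_contra hcon
  rw [not_le, ← hax] at hcon
  have hw0 : δ / 2 < |(v x - v (Rf a x)) / 2| := by
    rw [abs_div, abs_two]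
    linarith
  have := pf_avg_sup (w := fun x => (v x - v (Rf a x)) / 2) hL (half_pos hδ) hwl hws x hw0
  rw [← hη] at this
  linarith

end Pool.Agent.H212WH
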