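import Pool.Agent.H212WH.W0

set_option autoImplicit false

namespace Pool.Agent.H212WH

open MeasureTheory Set Filter Topology Metric
open scoped ContDiff

theorem pf_cut_wt_pos (n : ℕ) (p : ℝ) (x : E n) : 0 < wt n p x := by
  unfold wt
  exact Real.rpow_pos_of_pos (by positivity) _

theorem pf_cut_wt_mul (n : ℕ) (α : ℝ) (x : E n) :
    wt n α x = wt n (α - 1) x * (1 + ‖x‖ ^ 2) := by
  unfold wt
  have h : (1 + ‖x‖ ^ 2 : ℝ) ≠ 0 := by positivity
  rw [← Real.rpow_add_one h]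
  congr 1
  ring

theorem pf_cut_wt_cont (n : ℕ) (p : ℝ) : Continuous (wt n p) := by
  unfold wt
  exact Continuous.rpow_const (by fun_prop) fun x => Or.inl (by positivity)

noncomputable def pf_cut_phi (n : ℕ) : ContDiffBump (0 : E n) :=
  ⟨1, 2, one_pos, one_lt_two⟩

noncomputable def pf_cut_X (n k : ℕ) (x : E n) : ℝ :=
  pf_cut_phi n ((1 / ((k : ℝ) + 1)) • x)

theorem pf_cut_c_pos (k : ℕ) : 0 < 1 / ((k : ℝ) + 1) := by positivity

theorem pf_cut_c_le (k : ℕ) : 1 / ((k : ℝ) + 1) ≤ 1 := by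
  rw [div_le_one (by positivity)]
  have : (0 : ℝ) ≤ k := Nat.cast_nonneg k
  linarith

theorem pf_cut_X_cd (n k : ℕ) : ContDiff ℝ ∞ (pf_cut_X n k) := by
  unfold pf_cut_X
  exact (pf_cut_phi n).contDiff.comp (contDiff_const_smul _)

theorem pf_cut_X_cs (n k : ℕ) : HasCompactSupport (pf_cut_X n k) := by
  unfold pf_cut_X
  exact (pf_cut_phi n).hasCompactSupport.comp_smul (pf_cut_c_pos k).ne'

theorem pf_cut_X_nonneg (n k : ℕ) (x : E n) : 0 ≤ pf_cut_X n k x := (pf_cut_phi n).nonneg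

theorem pf_cut_X_le (n k : ℕ) (x : E n) : pf_cut_X n k x ≤ 1 := (pf_cut_phi n).le_one

theorem pf_cut_c_tendsto (n : ℕ) (x : E n) :
    Tendsto (fun k : ℕ => (1 / ((k : ℝ) + 1)) • x) atTop (𝓝 0) := by
  have h := (tendsto_one_div_add_atTop_nhds_zero_nat (𝕜 := ℝ)).smul_const x
  rwa [zero_smul] at h

theorem pf_cut_X_tendsto (n : ℕ) (x : E n) :
    Tendsto (fun k : ℕ => pf_cut_X n k x) atTop (𝓝 1) := by
  unfold pf_cut_X
  have h1 : (pf_cut_phi n) 0 = 1 :=
    (pf_cut_phi n).one_of_mem_closedBall (mem_closedBall_self (pf_cut_phi n).rIn_pos.le)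
  have h2 := ((pf_cut_phi n).contDiff (n := 0)).continuous.tendsto (0 : E n)
  rw [h1] at h2
  exact h2.comp (pf_cut_c_tendsto n x)

theorem pf_cut_DX (n k : ℕ) (x : E n) : fderiv ℝ (pf_cut_X n k) x =
    (1 / ((k : ℝ) + 1)) • fderiv ℝ (pf_cut_phi n) ((1 / ((k : ℝ) + 1)) • x) := by
  unfold pf_cut_X
  exact fderiv_comp_smul _

theorem pf_cut_Dphi (n : ℕ) : ∃ M : ℝ, 0 ≤ M ∧ ∀ x, ‖fderiv ℝ (pf_cut_phi n) x‖ ≤ M := by
  have h1 : Continuous (fderiv ℝ (pf_cut_phi n)) :=
    ((pf_cut_phi n).contDiff (n := 1)).continuous_fderiv (by norm_num)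
  obtain ⟨M, hM⟩ := h1.bounded_above_of_compact_support
    ((pf_cut_phi n).hasCompactSupport.fderiv ℝ)
  exact ⟨M, (norm_nonneg _).trans (hM 0), hM⟩

theorem pf_cut_DX_tendsto (n : ℕ) (x : E n) :
    Tendsto (fun k : ℕ => fderiv ℝ (pf_cut_X n k) x) atTop (𝓝 0) := by
  have h1 : Continuous (fderiv ℝ (pf_cut_phi n)) :=
    ((pf_cut_phi n).contDiff (n := 1)).continuous_fderiv (by norm_num)
  have h2 := (h1.tendsto (0 : E n)).comp (pf_cut_c_tendsto n x)
  have h3 := (tendsto_one_div_add_atTop_nhds_zero_nat (𝕜 := ℝ)).smul h2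
  rw [zero_smul] at h3
  refine h3.congr fun k => ?_
  rw [pf_cut_DX]
  rfl

theorem pf_cut_DX_bd (n k : ℕ) (α : ℝ) (x : E n) {M : ℝ} (hM0 : 0 ≤ M)
    (hM : ∀ x, ‖fderiv ℝ (pf_cut_phi n) x‖ ≤ M) :
    wt n α x * ‖fderiv ℝ (pf_cut_X n k) x‖ ^ 2 ≤ wt n (α - 1) x * (5 * M ^ 2) := by
  have hv := pf_cut_wt_pos n (α - 1) x
  rw [pf_cut_wt_mul, mul_assoc]
  refine mul_le_mul_of_nonneg_left ?_ hv.le
  rw [pf_cut_DX]
  set c : ℝ := 1 / ((k : ℝ) + 1) with hc
  have hc0 : 0 < c := pf_cut_c_pos k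
  have hc1 : c ≤ 1 := pf_cut_c_le k
  rw [norm_smul, Real.norm_eq_abs, abs_of_pos hc0]
  by_cases hx : ‖c • x‖ ≤ 2
  · have h1 : c * ‖x‖ ≤ 2 := by
      rwa [norm_smul, Real.norm_eq_abs, abs_of_pos hc0] at hx
    have h2 := hM (c • x)
    have h3 : ‖fderiv ℝ (pf_cut_phi n) (c • x)‖ ^ 2 ≤ M ^ 2 :=
      pow_le_pow_left₀ (norm_nonneg _) h2 2
    have h4 : (c * ‖x‖) ^ 2 ≤ 2 ^ 2 := pow_le_pow_left₀ (by positivity) h1 2
    have h5 : c ^ 2 ≤ 1 := by nlinarith
    have h6 : (1 + ‖x‖ ^ 2) * c ^ 2 ≤ 5 := by nlinarith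
    calc (1 + ‖x‖ ^ 2) * (c * ‖fderiv ℝ (pf_cut_phi n) (c • x)‖) ^ 2
        = ((1 + ‖x‖ ^ 2) * c ^ 2) * ‖fderiv ℝ (pf_cut_phi n) (c • x)‖ ^ 2 := by ring
      _ ≤ 5 * M ^ 2 := mul_le_mul h6 h3 (by positivity) (by norm_num)
  · have h1 : fderiv ℝ (pf_cut_phi n) (c • x) = 0 := by
      apply fderiv_of_notMem_tsupport
      rw [(pf_cut_phi n).tsupport_eq, mem_closedBall_zero_iff]
      exact hx
    rw [h1, norm_zero, mul_zero, zero_pow two_ne_zero, mul_zero]
    positivity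

theorem pf_cut_D (n : ℕ) {f η : E n → ℝ} (hf : ContDiff ℝ ∞ f) (hη : ContDiff ℝ ∞ η) (κ : ℝ)
    (k : ℕ) (x : E n) :
    fderiv ℝ (fun x => pf_cut_X n k x * f x - κ * η x) x =
      (pf_cut_X n k x • fderiv ℝ f x + f x • fderiv ℝ (pf_cut_X n k) x) - κ • fderiv ℝ η x := by
  have h1 : HasFDerivAt (pf_cut_X n k) (fderiv ℝ (pf_cut_X n k) x) x :=
    ((pf_cut_X_cd n k).differentiable (by simp) x).hasFDerivAt
  have h2 : HasFDerivAt f (fderiv ℝ f x) x := (hf.differentiable (by simp) x).hasFDerivAt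
  have h3 : HasFDerivAt η (fderiv ℝ η x) x := (hη.differentiable (by simp) x).hasFDerivAt
  exact ((h1.fun_mul h2).sub (h3.const_mul κ)).fderiv

theorem pf_cut_u_cd (n : ℕ) {f η : E n → ℝ} (hf : ContDiff ℝ ∞ f) (hη : ContDiff ℝ ∞ η) (κ : ℝ)
    (k : ℕ) : ContDiff ℝ ∞ (fun x => pf_cut_X n k x * f x - κ * η x) :=
  ((pf_cut_X_cd n k).mul hf).sub (contDiff_const.mul hη)

theorem pf_cut_key (n : ℕ) (α : ℝ) {f η : E n → ℝ} (hf : ContDiff ℝ ∞ f)
    (hE : Integrable (fun x => wt n α x * ‖fderiv ℝ f x‖ ^ 2))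
    (hM : Integrable (fun x => wt n (α - 1) x * f x ^ 2))
    (hη : ContDiff ℝ ∞ η) (hηc : HasCompactSupport η) (κ : ℕ → ℝ)
    (hκ : Tendsto κ atTop (𝓝 0)) :
    Tendsto (fun k => en n α (fun x => pf_cut_X n k x * f x - κ k * η x)) atTop
      (𝓝 (en n α f)) ∧
    Tendsto (fun k => ms n α (fun x => pf_cut_X n k x * f x - κ k * η x)) atTop
      (𝓝 (ms n α f)) := by
  obtain ⟨K, hK⟩ : ∃ K, ∀ k, ‖κ k‖ ≤ K := by
    obtain ⟨K, hK⟩ := isBounded_iff_forall_norm_le.1 (Metric.isBounded_range_of_tendsto κ hκ)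
    exact ⟨K, fun k => hK _ ⟨k, rfl⟩⟩
  have hK2 : ∀ k, κ k ^ 2 ≤ K ^ 2 := by
    intro k
    have h1 := hK k
    rw [Real.norm_eq_abs] at h1
    rw [← sq_abs]
    exact pow_le_pow_left₀ (abs_nonneg _) h1 2
  obtain ⟨M, hM0, hMM⟩ := pf_cut_Dphi n
  have hηD : Continuous (fderiv ℝ η) := hη.continuous_fderiv (by simp)
  have hηDc : HasCompactSupport (fderiv ℝ η) := hηc.fderiv ℝ
  have hI1 : Integrable (fun x => wt n α x * ‖fderiv ℝ η x‖ ^ 2) := by
    refine Continuous.integrable_of_hasCompactSupport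
      ((pf_cut_wt_cont n α).mul (hηD.norm.pow 2)) ?_
    exact (hηDc.comp_left (g := fun z => ‖z‖ ^ 2) (by simp)).mul_left
  have hI2 : Integrable (fun x => wt n (α - 1) x * η x ^ 2) := by
    refine Continuous.integrable_of_hasCompactSupport
      ((pf_cut_wt_cont n (α - 1)).mul (hη.continuous.pow 2)) ?_
    exact (hηc.comp_left (g := fun z => z ^ 2) (by simp)).mul_left
  constructor
  · unfold en
    refine tendsto_integral_of_dominated_convergence (fun x =>
      3 * (wt n α x * ‖fderiv ℝ f x‖ ^ 2 + 5 * M ^ 2 * (wt n (α - 1) x * f x ^ 2) +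
        K ^ 2 * (wt n α x * ‖fderiv ℝ η x‖ ^ 2))) ?_ ?_ ?_ ?_
    · intro k
      have h1 := (pf_cut_u_cd n hf hη (κ k) k).continuous_fderiv (by simp)
      exact ((pf_cut_wt_cont n α).mul (h1.norm.pow 2)).aestronglyMeasurable
    · exact ((hE.add (hM.const_mul _)).add (hI1.const_mul _)).const_mul 3
    · intro k
      refine Eventually.of_forall fun x => ?_
      have hw := pf_cut_wt_pos n α x
      have hv := pf_cut_wt_pos n (α - 1) x
      rw [Real.norm_eq_abs, abs_of_nonneg (by positivity), pf_cut_D n hf hη]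
      have b1 : ‖pf_cut_X n k x • fderiv ℝ f x‖ ≤ ‖fderiv ℝ f x‖ := by
        rw [norm_smul, Real.norm_eq_abs, abs_of_nonneg (pf_cut_X_nonneg n k x)]
        exact mul_le_of_le_one_left (norm_nonneg _) (pf_cut_X_le n k x)
      have b2 : ‖f x • fderiv ℝ (pf_cut_X n k) x‖ = |f x| * ‖fderiv ℝ (pf_cut_X n k) x‖ := by
        rw [norm_smul, Real.norm_eq_abs]
      have b3 : ‖κ k • fderiv ℝ η x‖ = |κ k| * ‖fderiv ℝ η x‖ := by
        rw [norm_smul, Real.norm_eq_abs]
      have b4 : ‖(pf_cut_X n k x • fderiv ℝ f x + f x • fderiv ℝ (pf_cut_X n k) x) -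
          κ k • fderiv ℝ η x‖ ≤ ‖fderiv ℝ f x‖ + |f x| * ‖fderiv ℝ (pf_cut_X n k) x‖ +
            |κ k| * ‖fderiv ℝ η x‖ := by
        refine (norm_sub_le _ _).trans ?_
        rw [b3]
        refine add_le_add ((norm_add_le _ _).trans ?_) le_rfl
        rw [b2]
        exact add_le_add b1 le_rfl
      have b5 := pow_le_pow_left₀ (norm_nonneg _) b4 2
      have b6 : (‖fderiv ℝ f x‖ + |f x| * ‖fderiv ℝ (pf_cut_X n k) x‖ +
            |κ k| * ‖fderiv ℝ η x‖) ^ 2 ≤ 3 * (‖fderiv ℝ f x‖ ^ 2 +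
            f x ^ 2 * ‖fderiv ℝ (pf_cut_X n k) x‖ ^ 2 + κ k ^ 2 * ‖fderiv ℝ η x‖ ^ 2) := by
        have e1 : f x ^ 2 * ‖fderiv ℝ (pf_cut_X n k) x‖ ^ 2 =
            (|f x| * ‖fderiv ℝ (pf_cut_X n k) x‖) ^ 2 := by rw [mul_pow, sq_abs]
        have e2 : κ k ^ 2 * ‖fderiv ℝ η x‖ ^ 2 = (|κ k| * ‖fderiv ℝ η x‖) ^ 2 := by
          rw [mul_pow, sq_abs]
        rw [e1, e2]
        nlinarith [sq_nonneg (‖fderiv ℝ f x‖ - |f x| * ‖fderiv ℝ (pf_cut_X n k) x‖),
          sq_nonneg (‖fderiv ℝ f x‖ - |κ k| * ‖fderiv ℝ η x‖),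
          sq_nonneg (|f x| * ‖fderiv ℝ (pf_cut_X n k) x‖ - |κ k| * ‖fderiv ℝ η x‖)]
      have b7 := pf_cut_DX_bd n k α x hM0 hMM
      have b8 : f x ^ 2 * (wt n α x * ‖fderiv ℝ (pf_cut_X n k) x‖ ^ 2) ≤
          f x ^ 2 * (wt n (α - 1) x * (5 * M ^ 2)) :=
        mul_le_mul_of_nonneg_left b7 (sq_nonneg _)
      have b9 : κ k ^ 2 * (wt n α x * ‖fderiv ℝ η x‖ ^ 2) ≤
          K ^ 2 * (wt n α x * ‖fderiv ℝ η x‖ ^ 2) :=
        mul_le_mul_of_nonneg_right (hK2 k) (by positivity)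
      have b10 := mul_le_mul_of_nonneg_left (b5.trans b6) hw.le
      nlinarith [b10, b8, b9]
    · refine Eventually.of_forall fun x => ?_
      refine Tendsto.const_mul _ ?_
      refine Tendsto.pow ?_ 2
      refine Tendsto.norm ?_
      have c1 := ((pf_cut_X_tendsto n x).smul_const (fderiv ℝ f x)).add
        ((pf_cut_DX_tendsto n x).const_smul (f x))
      have c2 := c1.sub (hκ.smul_const (fderiv ℝ η x))
      rw [one_smul, smul_zero, zero_smul, add_zero, sub_zero] at c2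
      refine c2.congr fun k => ?_
      rw [pf_cut_D n hf hη]
  · unfold ms
    refine tendsto_integral_of_dominated_convergence (fun x =>
      2 * (wt n (α - 1) x * f x ^ 2 + K ^ 2 * (wt n (α - 1) x * η x ^ 2))) ?_ ?_ ?_ ?_
    · intro k
      have h1 := (pf_cut_u_cd n hf hη (κ k) k).continuous
      exact ((pf_cut_wt_cont n (α - 1)).mul (h1.pow 2)).aestronglyMeasurable
    · exact (hM.add (hI2.const_mul _)).const_mul 2
    · intro k
      refine Eventually.of_forall fun x => ?_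
      have hv := pf_cut_wt_pos n (α - 1) x
      rw [Real.norm_eq_abs, abs_of_nonneg (by positivity)]
      have b0 := pf_cut_X_nonneg n k x
      have b1 := pf_cut_X_le n k x
      have b2 : pf_cut_X n k x ^ 2 ≤ 1 := by nlinarith
      have b3 : (pf_cut_X n k x * f x - κ k * η x) ^ 2 ≤
          2 * (f x ^ 2 + K ^ 2 * η x ^ 2) := by
        have b4 : pf_cut_X n k x ^ 2 * f x ^ 2 ≤ 1 * f x ^ 2 :=
          mul_le_mul_of_nonneg_right b2 (sq_nonneg _)
        have b5 : κ k ^ 2 * η x ^ 2 ≤ K ^ 2 * η x ^ 2 :=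
          mul_le_mul_of_nonneg_right (hK2 k) (sq_nonneg _)
        nlinarith [sq_nonneg (pf_cut_X n k x * f x + κ k * η x)]
      have b6 := mul_le_mul_of_nonneg_left b3 hv.le
      nlinarith [b6]
    · refine Eventually.of_forall fun x => ?_
      refine Tendsto.const_mul _ ?_
      refine Tendsto.pow ?_ 2
      have c1 := ((pf_cut_X_tendsto n x).mul_const (f x)).sub (hκ.mul_const (η x))
      rwa [one_mul, zero_mul, sub_zero] at c1

/-- the end of the argument -/
theorem pf_cut_end (n : ℕ) (α : ℝ) {f η : E n → ℝ} (hf : ContDiff ℝ ∞ f)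
    (hE : Integrable (fun x => wt n α x * ‖fderiv ℝ f x‖ ^ 2))
    (hM : Integrable (fun x => wt n (α - 1) x * f x ^ 2))
    (hη : ContDiff ℝ ∞ η) (hηc : HasCompactSupport η) (κ : ℕ → ℝ)
    (hκ : Tendsto κ atTop (𝓝 0)) (hpos : 0 < ms n α f) (c : ℝ) (hc : en n α f < c * ms n α f)
    (hcon : ∀ k, α < -((n : ℝ) - 2) / 2 →
      ∫ x, wt n (α - 1) x * (pf_cut_X n k x * f x - κ k * η x) = 0) :
    ∃ u, Adm n α u ∧ en n α u < c * ms n α u := by
  obtain ⟨h1, h2⟩ := pf_cut_key n α hf hE hM hη hηc κ hκ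
  have h3 := h1.sub (h2.const_mul c)
  have h4 := h3.eventually_lt_const (show en n α f - c * ms n α f < 0 by linarith)
  have h5 := h2.eventually_const_lt hpos
  obtain ⟨k, hk1, hk2⟩ := (h4.and h5).exists
  refine ⟨fun x => pf_cut_X n k x * f x - κ k * η x, ⟨pf_cut_u_cd n hf hη (κ k) k, ?_, ?_, hcon k⟩,
    by linarith⟩
  · exact ((pf_cut_X_cs n k).mul_right).sub (hηc.mul_left)
  · intro h0
    have h6 : ms n α (fun x => pf_cut_X n k x * f x - κ k * η x) = 0 := by
      rw [h0]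
      unfold ms
      simp
    linarith

/- PLAIN PROOF.
Let chi smooth, compactly supported, 0 <= chi <= 1, chi = 1 on the unit ball, zero outside the ball of radius 2 (ContDiffBump), chi_k(x) = chi(x/k), k = 1,2,...
Let v = wt n (alpha-1), w = wt n alpha. If alpha < -(n-2)/2 fix a smooth compactly supported eta with integral v eta = 1 (a nonnegative bump divided by the
integral) and kap_k = integral v f chi_k, which tends to integral v f = 0 (dominated convergence); otherwise take kap_k = 0, eta = 0. Let u_k = f chi_k - kap_k eta: smooth,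
compactly supported, and the constraint holds. ms u_k -> ms f: f chi_k -> f in L^2(v) by dominated convergence and kap_k eta -> 0 in L^2(v); it is simplest to expand
u_k^2 = (f chi_k)^2 - 2 kap_k eta f chi_k + kap_k^2 eta^2 and note that the integrals of |eta f| v, eta^2 v are finite constants. en u_k -> en f: fderiv u_k = chi_k fderiv f + f fderiv
chi_k - kap_k fderiv eta. The term chi_k fderiv f -> fderiv f in L^2(w) by dominated convergence; norm(fderiv chi_k x) <= M/k and it vanishes unless k <= norm x <= 2k, where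
w/k^2 = v (1+norm x^2)/k^2 <= 5 v, so integral w f^2 norm(fderiv chi_k)^2 <= 5 M^2 integral over {norm x >= k} of v f^2 -> 0; kap_k fderiv eta -> 0 in L^2(w). One may write
w^(1/2) fderiv u_k = w^(1/2) fderiv f + errors with squared L^2 norms tending to 0, or bound norm(fderiv u_k)^2 <= (1+t) norm(fderiv f)^2 + (1+1/t) norm(error)^2 for t > 0, which is enough
since only limsup en u_k <= en f is needed. As en f < c ms f, for t small and k large en u_k < c ms u_k and ms u_k > 0, so u_k <> 0.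
-/
theorem pf_cut : S_cut := by
  intro n α f hn hf hE hM hC hpos c hc
  by_cases hα : α < -((n : ℝ) - 2) / 2
  · obtain ⟨hI, h0⟩ := hC hα
    have hvc := pf_cut_wt_cont n (α - 1)
    have hφc : Continuous (pf_cut_phi n) := ((pf_cut_phi n).contDiff (n := 0)).continuous
    have hφs : HasCompactSupport (pf_cut_phi n) := (pf_cut_phi n).hasCompactSupport
    have hJ : 0 < ∫ x, wt n (α - 1) x * pf_cut_phi n x := by
      refine Continuous.integral_pos_of_hasCompactSupport_nonneg_nonzero (x := (0 : E n))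
        (hvc.mul hφc) hφs.mul_left ?_ ?_
      · intro x
        exact mul_nonneg (pf_cut_wt_pos n _ x).le (pf_cut_phi n).nonneg
      · have h1 : (pf_cut_phi n) 0 = 1 :=
          (pf_cut_phi n).one_of_mem_closedBall (mem_closedBall_self (pf_cut_phi n).rIn_pos.le)
        rw [h1, mul_one]
        exact (pf_cut_wt_pos n _ _).ne'
    set J : ℝ := ∫ x, wt n (α - 1) x * pf_cut_phi n x with hJdef
    have hη : ContDiff ℝ ∞ (fun x : E n => J⁻¹ * pf_cut_phi n x) :=
      contDiff_const.mul (pf_cut_phi n).contDiff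
    have hηc : HasCompactSupport (fun x : E n => J⁻¹ * pf_cut_phi n x) := hφs.mul_left
    have hκ : Tendsto (fun k : ℕ => ∫ x, pf_cut_X n k x * (wt n (α - 1) x * f x)) atTop
        (𝓝 0) := by
      rw [← h0]
      refine tendsto_integral_of_dominated_convergence (fun x => ‖wt n (α - 1) x * f x‖)
        ?_ hI.norm ?_ ?_
      · intro k
        exact ((pf_cut_X_cd n k).continuous.mul
          (hvc.mul hf.continuous)).aestronglyMeasurable
      · intro k
        refine Eventually.of_forall fun x => ?_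
        rw [norm_mul, Real.norm_eq_abs (pf_cut_X n k x), abs_of_nonneg (pf_cut_X_nonneg n k x)]
        exact mul_le_of_le_one_left (norm_nonneg _) (pf_cut_X_le n k x)
      · refine Eventually.of_forall fun x => ?_
        have h1 := (pf_cut_X_tendsto n x).mul_const (wt n (α - 1) x * f x)
        rwa [one_mul] at h1
    refine pf_cut_end n α hf hE hM hη hηc _ hκ hpos c hc ?_
    intro k _
    have i1 : Integrable (fun x : E n => pf_cut_X n k x * (wt n (α - 1) x * f x)) :=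
      Continuous.integrable_of_hasCompactSupport
        ((pf_cut_X_cd n k).continuous.mul (hvc.mul hf.continuous)) (pf_cut_X_cs n k).mul_right
    have i2 : Integrable (fun x : E n => wt n (α - 1) x * pf_cut_phi n x) :=
      Continuous.integrable_of_hasCompactSupport (hvc.mul hφc) hφs.mul_left
    have e1 : (fun x : E n => wt n (α - 1) x * (pf_cut_X n k x * f x -
        (∫ x, pf_cut_X n k x * (wt n (α - 1) x * f x)) * (J⁻¹ * pf_cut_phi n x))) =
        fun x => pf_cut_X n k x * (wt n (α - 1) x * f x) -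
          ((∫ x, pf_cut_X n k x * (wt n (α - 1) x * f x)) * J⁻¹) *
            (wt n (α - 1) x * pf_cut_phi n x) := by
      funext x
      ring
    rw [e1, integral_sub i1 (i2.const_mul _), integral_const_mul, ← hJdef, mul_assoc,
      inv_mul_cancel₀ hJ.ne', mul_one, sub_self]
  · refine pf_cut_end n α hf hE hM (η := fun _ => (0 : ℝ)) contDiff_const
      HasCompactSupport.zero (fun _ => 0) tendsto_const_nhds hpos c hc ?_
    intro k h
    exact absurd h hα

end Pool.Agent.H212WH
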