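import Pool.Agent.H212WH.W0

set_option autoImplicit false

namespace Pool.Agent.H212WH

open MeasureTheory Set Filter Topology Metric
open scoped ContDiff

theorem pf_gs_pos {n : ℕ} (x : E n) : (0 : ℝ) < 1 + ‖x‖ ^ 2 := by positivity

theorem pf_gs_wt_pos {n : ℕ} (p : ℝ) (x : E n) : 0 < wt n p x :=
  Real.rpow_pos_of_pos (pf_gs_pos x) p

theorem pf_gs_wt_contDiff (n : ℕ) (p : ℝ) : ContDiff ℝ 1 (wt n p) := by
  unfold wt
  apply ContDiff.rpow_const_of_ne
  · exact contDiff_const.add (contDiff_norm_sq ℝ)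
  · intro x
    exact (pf_gs_pos x).ne'

theorem pf_gs_wt_succ {n : ℕ} (p : ℝ) (x : E n) : wt n (p + 1) x = wt n p x * (1 + ‖x‖ ^ 2) := by
  unfold wt
  rw [Real.rpow_add_one (pf_gs_pos x).ne']

theorem pf_gs_fderiv_wt {n : ℕ} (p : ℝ) (x : E n) :
    fderiv ℝ (wt n (p + 1)) x x = (p + 1) * wt n p x * (2 * ‖x‖ ^ 2) := by
  have h1 : HasFDerivAt (fun y : E n => 1 + ‖y‖ ^ 2) (2 • (innerSL ℝ x)) x := by
    have := (hasStrictFDerivAt_norm_sq x).hasFDerivAt
    exact this.const_add 1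
  have h2 := h1.rpow_const (p := p + 1) (Or.inl (pf_gs_pos x).ne')
  have h3 : HasFDerivAt (wt n (p + 1)) _ x := h2
  rw [h3.fderiv]
  simp only [wt, add_sub_cancel_right]
  simp [innerSL_apply_apply]

theorem pf_gs_point (β W s u d D r : ℝ) (hW : 0 ≤ W) (hs : 0 ≤ s) (hd : |d| ≤ D * r) :
    -2 * β * (W * s * (2 * u * d)) - 4 * β ^ 2 * (W * (u ^ 2 * r ^ 2)) ≤ W * s * s * D ^ 2 := by
  have h1 : -(2 * β * (2 * u * d)) ≤ 4 * |β| * |u| * (D * r) := by
    calc -(2 * β * (2 * u * d)) ≤ |2 * β * (2 * u * d)| := neg_le_abs _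
      _ = 4 * |β| * |u| * |d| := by
        rw [abs_mul, abs_mul, abs_mul, abs_mul]
        simp
        ring
      _ ≤ 4 * |β| * |u| * (D * r) := by
        apply mul_le_mul_of_nonneg_left hd
        positivity
  have h2 : W * s * (-(2 * β * (2 * u * d))) ≤ W * s * (4 * |β| * |u| * (D * r)) :=
    mul_le_mul_of_nonneg_left h1 (mul_nonneg hW hs)
  have h3 : 0 ≤ W * (s * D - 2 * |β| * |u| * r) ^ 2 := mul_nonneg hW (sq_nonneg _)
  have h4 : |β| ^ 2 = β ^ 2 := sq_abs β
  have h5 : |u| ^ 2 = u ^ 2 := sq_abs u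
  have h6 : W * (s * D - 2 * |β| * |u| * r) ^ 2 =
      W * s * s * D ^ 2 - W * s * (4 * |β| * |u| * (D * r)) + 4 * (|β| ^ 2) * (W * (|u| ^ 2 * r ^ 2)) := by
    ring
  rw [h4, h5] at h6
  nlinarith [h2, h3, h6]

theorem pf_gs (h1 : S_ibp) : S_gs := by
  intro n α β u hu hc
  obtain ⟨q, rfl⟩ : ∃ q : ℝ, α = q + 1 + 1 := ⟨α - 2, by ring⟩
  have hq : q + 1 + 1 - 1 = q + 1 := by ring
  rw [hq]
  have hg : ContDiff ℝ 1 (fun x => u x ^ 2) := hu.pow 2
  have hgc : HasCompactSupport (fun x => u x ^ 2) := by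
    have := hc.comp_left (g := fun t : ℝ => t ^ 2) (by simp)
    exact this
  have hcont : Continuous u := hu.continuous
  have hfc : Continuous (fderiv ℝ u) := hu.continuous_fderiv one_ne_zero
  have hwc : ∀ p, Continuous (wt n p) := fun p => (pf_gs_wt_contDiff n p).continuous
  have hdg : ∀ x, fderiv ℝ (fun x => u x ^ 2) x x = 2 * u x * fderiv ℝ u x x := by
    intro x
    have h := ((hu.differentiable one_ne_zero x).hasFDerivAt).pow 2
    have h' : HasFDerivAt (fun x => u x ^ 2) _ x := h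
    rw [h'.fderiv]
    simp
  have key := h1 n (fun x => u x ^ 2) (wt n (q + 1)) hg hgc (pf_gs_wt_contDiff n (q + 1))
  simp only [hdg, pf_gs_fderiv_wt] at key
  -- integrability
  have hcu2 : HasCompactSupport (fun x => u x ^ 2) := hgc
  have hi : ∀ f : E n → ℝ, Continuous f → Integrable (fun x => f x * u x ^ 2) := by
    intro f hf
    apply Continuous.integrable_of_hasCompactSupport (by fun_prop)
    exact hcu2.mul_left
  have hfx : Continuous (fun x : E n => fderiv ℝ u x x) := hfc.clm_apply continuous_id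
  have hi1 : Integrable (fun x => wt n (q + 1) x * (2 * u x * fderiv ℝ u x x)) := by
    apply Continuous.integrable_of_hasCompactSupport
    · exact (hwc _).mul ((continuous_const.mul hcont).mul hfx)
    · have h : HasCompactSupport (fun x => 2 * u x * fderiv ℝ u x x) := by
        apply HasCompactSupport.mul_right
        exact hc.mul_left
      exact h.mul_left
  have hi2 : Integrable (fun x => wt n q x * (u x ^ 2 * ‖x‖ ^ 2)) := by
    have := hi (fun x => wt n q x * ‖x‖ ^ 2) ((hwc _).mul (by fun_prop))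
    refine this.congr (Eventually.of_forall fun x => ?_)
    simp only
    ring
  have hi3 : Integrable (fun x => wt n (q + 1 + 1) x * ‖fderiv ℝ u x‖ ^ 2) := by
    apply Continuous.integrable_of_hasCompactSupport
    · exact (hwc _).mul ((hfc.norm).pow 2)
    · have h : HasCompactSupport (fun x => ‖fderiv ℝ u x‖ ^ 2) := by
        have := (hc.fderiv (𝕜 := ℝ)).comp_left (g := fun t : E n →L[ℝ] ℝ => ‖t‖ ^ 2) (by simp)
        exact this
      exact h.mul_left
  have hi4 : Integrable (fun x => u x ^ 2 *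
      (n * wt n (q + 1) x + (q + 1) * wt n q x * (2 * ‖x‖ ^ 2))) := by
    have := hi (fun x => n * wt n (q + 1) x + (q + 1) * wt n q x * (2 * ‖x‖ ^ 2))
      ((continuous_const.mul (hwc _)).add ((continuous_const.mul (hwc _)).mul (by fun_prop)))
    refine this.congr (Eventually.of_forall fun x => ?_)
    simp only
    ring
  have hF : ∫ x, wt n (q + 1) x * (2 * β * (n + 2 * (q + 1 - β)) -
      4 * β * (q + 1 - β) / (1 + ‖x‖ ^ 2)) * u x ^ 2 =
      ∫ x, (-2 * β * (wt n (q + 1) x * (2 * u x * fderiv ℝ u x x)) -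
        4 * β ^ 2 * (wt n q x * (u x ^ 2 * ‖x‖ ^ 2))) := by
    rw [integral_sub (hi1.const_mul _) (hi2.const_mul _), integral_const_mul, integral_const_mul,
      key]
    have e1 : -2 * β * (-∫ x, u x ^ 2 * (n * wt n (q + 1) x + (q + 1) * wt n q x * (2 * ‖x‖ ^ 2)))
        = 2 * β * ∫ x, u x ^ 2 * (n * wt n (q + 1) x + (q + 1) * wt n q x * (2 * ‖x‖ ^ 2)) := by
      ring
    rw [e1, ← integral_const_mul, ← integral_const_mul,
      ← integral_sub (hi4.const_mul _) (hi2.const_mul _)]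
    apply integral_congr_ae
    refine Eventually.of_forall fun x => ?_
    simp only
    rw [pf_gs_wt_succ]
    have := (pf_gs_pos x).ne'
    field_simp
    ring
  rw [hF]
  unfold en
  apply integral_mono ((hi1.const_mul _).sub (hi2.const_mul _)) hi3
  intro x
  have hd : |fderiv ℝ u x x| ≤ ‖fderiv ℝ u x‖ * ‖x‖ := (fderiv ℝ u x).le_opNorm x
  have := pf_gs_point β (wt n q x) (1 + ‖x‖ ^ 2) (u x) (fderiv ℝ u x x) ‖fderiv ℝ u x‖ ‖x‖
    (pf_gs_wt_pos q x).le (pf_gs_pos x).le hd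
  have e1 : wt n (q + 1) x = wt n q x * (1 + ‖x‖ ^ 2) := pf_gs_wt_succ q x
  have e2 : wt n (q + 1 + 1) x = wt n q x * (1 + ‖x‖ ^ 2) * (1 + ‖x‖ ^ 2) := by
    rw [pf_gs_wt_succ (q + 1), e1]
  simp only [Pi.sub_apply, e1, e2]
  exact this

end Pool.Agent.H212WH
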