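import Pool.Agent.H212WH.W0

set_option autoImplicit false

namespace Pool.Agent.H212WH

open MeasureTheory Set Filter Topology Metric
open scoped ContDiff

/- PLAIN PROOF.
Write x = sum_i x_i e_i, so fderiv g x x = sum_i x_i * fderiv g x e_i (linearity). For each i integrate by parts:
integral (rho x * x_i) * fderiv g x e_i = - integral g x * (fderiv (rho * x_i) x e_i) = - integral g x * (rho x + x_i fderiv rho x e_i);
Mathlib: integral_mul_fderiv_eq_neg_fderiv_mul_of_integrable (Mathlib.Analysis.Calculus.LineDeriv.IntegrationByParts); all functions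
are continuous with compact support (a factor g or fderiv g), hence integrable. Sum over i (Fin n, card n). For n = 0 both sides are 0
by the same argument. Basis: EuclideanSpace.basisFun / EuclideanSpace.single.
-/
theorem pf_ibp_sum {n : ℕ} (x : E n) :
    ∑ i, x i • (EuclideanSpace.single i (1 : ℝ) : E n) = x := by
  ext j
  simp [Pi.single_apply]

theorem pf_ibp_lin {n : ℕ} (L : E n →L[ℝ] ℝ) (x : E n) :
    L x = ∑ i, x i * L (EuclideanSpace.single i (1 : ℝ)) := by
  conv_lhs => rw [← pf_ibp_sum x]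
  rw [map_sum]
  refine Finset.sum_congr rfl fun i _ => ?_
  rw [map_smul, smul_eq_mul]

theorem pf_ibp_fd {n : ℕ} (ρ : E n → ℝ) (h : ContDiff ℝ 1 ρ) (i : Fin n) (x : E n) :
    fderiv ℝ (fun x : E n => ρ x * x i) x (EuclideanSpace.single i (1 : ℝ)) =
      ρ x + x i * fderiv ℝ ρ x (EuclideanSpace.single i (1 : ℝ)) := by
  have h1 : HasFDerivAt (fun x : E n => x i) (EuclideanSpace.proj i : E n →L[ℝ] ℝ) x :=
    (EuclideanSpace.proj i : E n →L[ℝ] ℝ).hasFDerivAt
  have h2 : HasFDerivAt ρ (fderiv ℝ ρ x) x :=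
    (h.differentiable (by norm_num) x).hasFDerivAt
  have h3 : HasFDerivAt (fun x : E n => ρ x * x i)
      (ρ x • (EuclideanSpace.proj i : E n →L[ℝ] ℝ) + x i • fderiv ℝ ρ x) x := h2.mul h1
  rw [h3.fderiv]
  simp

theorem pf_ibp : S_ibp := by
  intro n g ρ hg hgc hρ
  have hcg : Continuous g := hg.continuous
  have hcρ : Continuous ρ := hρ.continuous
  have hdg : Continuous (fun x => fderiv ℝ g x) := hg.continuous_fderiv (by norm_num)
  have hdρ : Continuous (fun x => fderiv ℝ ρ x) := hρ.continuous_fderiv (by norm_num)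
  have hci : ∀ i : Fin n, Continuous (fun x : E n => x i) := fun i =>
    (EuclideanSpace.proj i : E n →L[ℝ] ℝ).continuous
  have hdge : ∀ v : E n, Continuous (fun x => fderiv ℝ g x v) := fun v =>
    hdg.clm_apply continuous_const
  have hdρe : ∀ v : E n, Continuous (fun x => fderiv ℝ ρ x v) := fun v =>
    hdρ.clm_apply continuous_const
  have hgce : ∀ v : E n, HasCompactSupport (fun x => fderiv ℝ g x v) := fun v =>
    hgc.fderiv_apply ℝ v
  have I1 : ∀ i : Fin n, Integrable (fun x : E n => ρ x * x i *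
      fderiv ℝ g x (EuclideanSpace.single i (1 : ℝ))) := fun i =>
    ((hcρ.mul (hci i)).mul (hdge _)).integrable_of_hasCompactSupport ((hgce _).mul_left)
  have I2 : ∀ i : Fin n, Integrable (fun x : E n =>
      (ρ x + x i * fderiv ℝ ρ x (EuclideanSpace.single i (1 : ℝ))) * g x) := fun i =>
    ((hcρ.add ((hci i).mul (hdρe _))).mul hcg).integrable_of_hasCompactSupport (hgc.mul_left)
  have key : ∀ i : Fin n, ∫ x : E n, ρ x * x i *
      fderiv ℝ g x (EuclideanSpace.single i (1 : ℝ)) =
      - ∫ x : E n, (ρ x + x i * fderiv ℝ ρ x (EuclideanSpace.single i (1 : ℝ))) * g x := by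
    intro i
    have hI2 : Integrable (fun x : E n =>
        fderiv ℝ (fun x : E n => ρ x * x i) x (EuclideanSpace.single i (1 : ℝ)) * g x) := by
      simp only [pf_ibp_fd ρ hρ i]
      exact I2 i
    have h3 := integral_mul_fderiv_eq_neg_fderiv_mul_of_integrable (μ := volume)
      (f := fun x : E n => ρ x * x i) (g := g) (v := EuclideanSpace.single i (1 : ℝ))
      hI2 (I1 i)
      (((hcρ.mul (hci i)).mul hcg).integrable_of_hasCompactSupport hgc.mul_left)
      (fun x _ => (hρ.differentiable (by norm_num) x).mul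
        (EuclideanSpace.proj i : E n →L[ℝ] ℝ).differentiableAt)
      (fun x _ => hg.differentiable (by norm_num) x)
    rw [h3]
    simp only [pf_ibp_fd ρ hρ i]
  have e1 : ∀ x : E n, ρ x * fderiv ℝ g x x = ∑ i, ρ x * x i *
      fderiv ℝ g x (EuclideanSpace.single i (1 : ℝ)) := by
    intro x
    rw [pf_ibp_lin (fderiv ℝ g x) x, Finset.mul_sum]
    exact Finset.sum_congr rfl fun i _ => by ring
  have e2 : ∀ x : E n, g x * (n * ρ x + fderiv ℝ ρ x x) =
      ∑ i, (ρ x + x i * fderiv ℝ ρ x (EuclideanSpace.single i (1 : ℝ))) * g x := by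
    intro x
    rw [pf_ibp_lin (fderiv ℝ ρ x) x, ← Finset.sum_mul, Finset.sum_add_distrib,
      Finset.sum_const, Finset.card_univ, Fintype.card_fin, nsmul_eq_mul]
    ring
  simp only [e1, e2]
  rw [integral_finsetSum _ (fun i _ => I1 i), integral_finsetSum _ (fun i _ => I2 i),
    ← Finset.sum_neg_distrib]
  exact Finset.sum_congr rfl fun i _ => key i

end Pool.Agent.H212WH

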