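import Pool.Agent.H212WH.W0

set_option autoImplicit false

namespace Pool.Agent.H212WH

open MeasureTheory Set Filter Topology Metric
open scoped ContDiff

theorem pf_ibp2_fderiv {n : ℕ} {χ : E n → ℝ} (hχ : ContDiff ℝ 1 χ) (c : ℝ) (x : E n) :
    fderiv ℝ (fun x => χ (c • x)) x x = fderiv ℝ χ (c • x) (c • x) := by
  have h1 : HasFDerivAt χ (fderiv ℝ χ (c • x)) (c • x) :=
    (hχ.differentiable one_ne_zero (c • x)).hasFDerivAt
  have h2 : HasFDerivAt (fun x : E n => c • x) (c • ContinuousLinearMap.id ℝ (E n)) x :=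
    (hasFDerivAt_id x).const_smul c
  have h3 := h1.comp x h2
  have h4 : fderiv ℝ (fun x => χ (c • x)) x =
      (fderiv ℝ χ (c • x)).comp (c • ContinuousLinearMap.id ℝ (E n)) := h3.fderiv
  rw [h4]
  simp

theorem pf_ibp2 (h1 : S_ibp) : S_ibp2 := by
  intro n ρ hρ hρi hdi
  let B : ContDiffBump (0 : E n) := ⟨1, 2, one_pos, one_lt_two⟩
  have hχ : ContDiff ℝ 1 (B : E n → ℝ) := B.contDiff
  have hχc : HasCompactSupport (B : E n → ℝ) := B.hasCompactSupport
  have hχ0 : B (0 : E n) = 1 := B.one_of_mem_closedBall (by simp [B])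
  let c : ℕ → ℝ := fun k => 1 / ((k : ℝ) + 1)
  have hc0 : ∀ k, c k ≠ 0 := fun k => by
    have : (0 : ℝ) < (k : ℝ) + 1 := by positivity
    exact (one_div_pos.2 this).ne'
  have hct : Tendsto c atTop (𝓝 0) := tendsto_one_div_add_atTop_nhds_zero_nat
  have hcx : ∀ x : E n, Tendsto (fun k => c k • x) atTop (𝓝 0) := fun x => by
    have := hct.smul_const x
    rwa [zero_smul] at this
  let ψ : E n → ℝ := fun y => fderiv ℝ (B : E n → ℝ) y y
  have hψc : Continuous ψ := (hχ.continuous_fderiv one_ne_zero).clm_apply continuous_id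
  have hψs : HasCompactSupport ψ := by
    refine (hχc.fderiv ℝ).mono fun y hy => ?_
    rw [Function.mem_support] at hy ⊢
    intro h
    apply hy
    show fderiv ℝ (B : E n → ℝ) y y = 0
    rw [h]
    rfl
  obtain ⟨M, hM⟩ := hψs.exists_bound_of_continuous hψc
  have hψ0 : ψ 0 = 0 := map_zero _
  have hid : ∀ k, ∫ x, ρ x * ψ (c k • x) =
      - ∫ x, B (c k • x) * (n * ρ x + fderiv ℝ ρ x x) := by
    intro k
    have h2 := h1 n (fun x => B (c k • x)) ρ (hχ.comp (contDiff_const_smul (c k)))
      (hχc.comp_smul (hc0 k)) hρ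
    rw [← h2]
    refine integral_congr_ae (Eventually.of_forall fun x => ?_)
    simp only
    rw [pf_ibp2_fderiv hχ]
  have hh : Integrable (fun x => n * ρ x + fderiv ℝ ρ x x) := (hρi.const_mul _).add hdi
  have hL : Tendsto (fun k => ∫ x, ρ x * ψ (c k • x)) atTop (𝓝 (∫ x, ρ x * 0)) := by
    refine tendsto_integral_of_dominated_convergence (fun x => M * ‖ρ x‖) ?_
      (hρi.norm.const_mul M) ?_ ?_
    · intro k
      exact (hρ.continuous.mul (hψc.comp (continuous_const_smul (c k)))).aestronglyMeasurable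
    · intro k
      refine Eventually.of_forall fun x => ?_
      rw [norm_mul, mul_comm]
      exact mul_le_mul_of_nonneg_right (hM _) (norm_nonneg _)
    · refine Eventually.of_forall fun x => ?_
      have h3 : Tendsto (fun k => ψ (c k • x)) atTop (𝓝 (ψ 0)) :=
        (hψc.tendsto 0).comp (hcx x)
      rw [hψ0] at h3
      exact h3.const_mul (ρ x)
  have hR : Tendsto (fun k => ∫ x, B (c k • x) * (n * ρ x + fderiv ℝ ρ x x)) atTop
      (𝓝 (∫ x, 1 * (n * ρ x + fderiv ℝ ρ x x))) := by
    refine tendsto_integral_of_dominated_convergence (fun x => ‖n * ρ x + fderiv ℝ ρ x x‖) ?_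
      hh.norm ?_ ?_
    · intro k
      have h4 : Continuous fun x : E n => B (c k • x) :=
        hχ.continuous.comp (continuous_const_smul (c k))
      exact h4.aestronglyMeasurable.mul hh.aestronglyMeasurable
    · intro k
      refine Eventually.of_forall fun x => ?_
      rw [norm_mul]
      have h5 : ‖B (c k • x)‖ ≤ 1 := by
        rw [Real.norm_of_nonneg B.nonneg]
        exact B.le_one
      calc _ ≤ 1 * ‖n * ρ x + fderiv ℝ ρ x x‖ := mul_le_mul_of_nonneg_right h5 (norm_nonneg _)
        _ = _ := one_mul _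
    · refine Eventually.of_forall fun x => ?_
      have h3 : Tendsto (fun k => B (c k • x)) atTop (𝓝 (B 0)) :=
        (hχ.continuous.tendsto 0).comp (hcx x)
      rw [hχ0] at h3
      exact h3.mul_const _
  have hR' := hR.neg
  have h6 : (fun k => ∫ x, ρ x * ψ (c k • x)) =
      fun k => - ∫ x, B (c k • x) * (n * ρ x + fderiv ℝ ρ x x) := funext hid
  rw [h6] at hL
  have h7 := tendsto_nhds_unique hL hR'
  simp only [mul_zero, integral_zero, one_mul] at h7
  linarith

end Pool.Agent.H212WH
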