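import Pool.Agent.H212WH.W0

set_option autoImplicit false

namespace Pool.Agent.H212WH

open MeasureTheory Set Filter Topology Metric
open scoped ContDiff

theorem pf_low1_cont (n : ℕ) (p : ℝ) : Continuous (wt n p) := by
  unfold wt
  refine Continuous.rpow_const (by fun_prop) fun x => Or.inl ?_
  positivity

theorem pf_low1_int (n : ℕ) (p : ℝ) (u : E n → ℝ) (hu : Continuous u) (hc : HasCompactSupport u)
    (g : E n → ℝ) (hg : Continuous g) : Integrable fun x => wt n p x * g x * u x ^ 2 := by
  refine Continuous.integrable_of_hasCompactSupport ?_ ?_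
  · exact ((pf_low1_cont n p).mul hg).mul (hu.pow 2)
  · have h : (fun x => wt n p x * g x * u x ^ 2) = fun x => (wt n p x * g x * u x) * u x := by
      funext x; ring
    rw [h]
    exact hc.mul_left

theorem pf_low1 (h1 : S_gs) : S_low1 := by
  intro n α hn hα u hu hc
  have hn3 : (3 : ℝ) ≤ n := by exact_mod_cast hn
  have hms : Cst n α * ms n α u = ∫ x, wt n (α - 1) x * Cst n α * u x ^ 2 := by
    unfold ms
    rw [← integral_const_mul]
    congr 1
    funext x
    ring
  have hn1 : ¬ α ≤ -(n : ℝ) := by intro h; linarith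
  have hn2 : ¬ α ≤ -((n : ℝ) + 2) / 2 := by intro h; linarith
  have hsq : ∀ x : E n, 0 < 1 + ‖x‖ ^ 2 := fun x => by positivity
  have hw : ∀ (p : ℝ) (x : E n), 0 ≤ wt n p x := fun p x => Real.rpow_nonneg (hsq x).le p
  rw [hms]
  by_cases h3 : α ≤ ((n : ℝ) + 2) / 2
  · have hC : Cst n α = ((n : ℝ) + 2 * α - 2) ^ 2 / 4 := by
      unfold Cst
      rw [if_neg hn1, if_neg hn2, if_pos h3]
    set β : ℝ := ((n : ℝ) + 2 * α - 2) / 4 with hβ
    refine le_trans ?_ (h1 n α β u hu hc)
    refine integral_mono ?_ ?_ ?_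
    · exact pf_low1_int n _ u hu.continuous hc (fun _ => Cst n α) continuous_const
    · refine pf_low1_int n _ u hu.continuous hc _ ?_
      refine continuous_const.sub (Continuous.div continuous_const (by fun_prop) ?_)
      exact fun x => (hsq x).ne'
    · intro x
      refine mul_le_mul_of_nonneg_right (mul_le_mul_of_nonneg_left ?_ (hw _ x)) (sq_nonneg _)
      have h4 : 2 * β * (n + 2 * (α - 1 - β)) = Cst n α := by
        rw [hC, hβ]; ring
      have h5 : 4 * β * (α - 1 - β) / (1 + ‖x‖ ^ 2) ≤ 0 := by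
        refine div_nonpos_of_nonpos_of_nonneg ?_ (hsq x).le
        have hb : 0 ≤ β := by rw [hβ]; linarith
        have hb2 : α - 1 - β ≤ 0 := by rw [hβ]; linarith
        nlinarith
      rw [h4]
      linarith
  · have hC : Cst n α = 2 * n * (α - 1) := by
      unfold Cst
      rw [if_neg hn1, if_neg hn2, if_neg h3]
    refine le_trans (le_of_eq ?_) (h1 n α (α - 1) u hu hc)
    congr 1
    funext x
    rw [hC, sub_self]
    simp only [mul_zero, add_zero, zero_div, sub_zero]
    ring

end Pool.Agent.H212WH
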