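import Pool.Agent.H212WH.W0

set_option autoImplicit false

namespace Pool.Agent.H212WH

open MeasureTheory Set Filter Topology Metric
open scoped ContDiff

/-- The reflection as a linear isometry equivalence. -/
noncomputable def pf_red_R {n : ℕ} (a : E n) : E n ≃ₗᵢ[ℝ] E n :=
  (Submodule.span ℝ {a})ᗮ.reflection

theorem pf_red_R_apply {n : ℕ} (a : E n) (ha : ‖a‖ = 1) (x : E n) : pf_red_R a x = Rf a x := by
  unfold pf_red_R Rf
  rw [Submodule.reflection_orthogonal_apply, Submodule.reflection_singleton_apply, ha]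
  simp only [one_pow, div_one, RCLike.ofReal_real_eq_id, id]
  rw [neg_sub, two_smul, two_mul, add_smul]

theorem pf_red_cov {n : ℕ} (a : E n) (ha : ‖a‖ = 1) (f : E n → ℝ) :
    ∫ x, f (Rf a x) = ∫ x, f x := by
  have h := (pf_red_R a).measurePreserving.integral_comp
    (pf_red_R a).toHomeomorph.measurableEmbedding f
  rw [← h]
  refine integral_congr_ae (Filter.Eventually.of_forall fun x => ?_)
  simp only [pf_red_R_apply a ha]

theorem pf_red_norm {n : ℕ} (a : E n) (ha : ‖a‖ = 1) (x : E n) : ‖Rf a x‖ = ‖x‖ := by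
  rw [← pf_red_R_apply a ha, LinearIsometryEquiv.norm_map]

theorem pf_red_wt {n : ℕ} (a : E n) (ha : ‖a‖ = 1) (p : ℝ) (x : E n) :
    wt n p (Rf a x) = wt n p x := by
  unfold wt
  rw [pf_red_norm a ha]

theorem pf_red_fderiv {n : ℕ} (a : E n) (ha : ‖a‖ = 1) (u : E n → ℝ) (hu : ContDiff ℝ 1 u)
    (x : E n) : ‖fderiv ℝ (fun y => u (Rf a y)) x‖ = ‖fderiv ℝ u (Rf a x)‖ := by
  have h1 : (fun y => u (Rf a y)) = u ∘ (pf_red_R a) := by
    funext y
    simp only [Function.comp_apply, pf_red_R_apply a ha]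
  rw [h1]
  have h2 : fderiv ℝ (u ∘ (pf_red_R a)) x
      = (fderiv ℝ u (pf_red_R a x)).comp ((pf_red_R a).toContinuousLinearEquiv : E n →L[ℝ] E n) := by
    have h3 := (pf_red_R a).toContinuousLinearEquiv.comp_right_fderiv (f := u) (x := x)
    exact h3
  rw [h2, pf_red_R_apply a ha]
  exact ContinuousLinearMap.opNorm_comp_linearIsometryEquiv _ (pf_red_R a)

theorem pf_red_par {n : ℕ} (A B : E n →L[ℝ] ℝ) :
    ‖(1 / 2 : ℝ) • (A + B)‖ ^ 2 + ‖(1 / 2 : ℝ) • (A - B)‖ ^ 2 = (‖A‖ ^ 2 + ‖B‖ ^ 2) / 2 := by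
  have e : ∀ L : E n →L[ℝ] ℝ, ‖L‖ = ‖(InnerProductSpace.toDual ℝ (E n)).symm L‖ := fun L =>
    (LinearIsometryEquiv.norm_map _ _).symm
  rw [norm_smul, norm_smul, e (A + B), e (A - B), e A, e B, map_add, map_sub]
  have h := parallelogram_law_with_norm_mul ℝ ((InnerProductSpace.toDual ℝ (E n)).symm A)
    ((InnerProductSpace.toDual ℝ (E n)).symm B)
  rw [Real.norm_of_nonneg (by norm_num : (0 : ℝ) ≤ 1 / 2)]
  nlinarith [h]

theorem pf_red_contwt {n : ℕ} (p : ℝ) : Continuous (wt n p) := by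
  unfold wt
  refine Continuous.rpow_const (by fun_prop) fun x => Or.inl ?_
  positivity

theorem pf_red_i1 {n : ℕ} (p : ℝ) (u : E n → ℝ) (hu : ContDiff ℝ 1 u) (hc : HasCompactSupport u) :
    Integrable (fun x => wt n p x * ‖fderiv ℝ u x‖ ^ 2) := by
  apply Continuous.integrable_of_hasCompactSupport
  · exact (pf_red_contwt p).mul ((hu.continuous_fderiv (by norm_num)).norm.pow 2)
  · apply HasCompactSupport.mul_left
    have h := (hc.fderiv (𝕜 := ℝ)).comp_left (g := fun L : E n →L[ℝ] ℝ => ‖L‖ ^ 2) (by simp)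
    exact h

theorem pf_red_i2 {n : ℕ} (p : ℝ) (u : E n → ℝ) (hu : Continuous u) (hc : HasCompactSupport u) :
    Integrable (fun x => wt n p x * u x ^ 2) := by
  apply Continuous.integrable_of_hasCompactSupport
  · exact (pf_red_contwt p).mul (hu.pow 2)
  · apply HasCompactSupport.mul_left
    exact hc.comp_left (g := fun t : ℝ => t ^ 2) (by simp)

theorem pf_red_i3 {n : ℕ} (p : ℝ) (u : E n → ℝ) (hu : Continuous u) (hc : HasCompactSupport u) :
    Integrable (fun x => wt n p x * u x) := by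
  apply Continuous.integrable_of_hasCompactSupport
  · exact (pf_red_contwt p).mul hu
  · exact hc.mul_left

theorem pf_red (h1 : S_odd) : S_red := by
  intro n α C hα hC a ha u hu hc
  have hRe : ∀ x, pf_red_R a x = Rf a x := pf_red_R_apply a ha
  set w : E n → ℝ := fun x => u (Rf a x) with hw
  have hweq : w = u ∘ (pf_red_R a) := by
    funext y
    simp only [hw, Function.comp_apply, hRe]
  have hwd : ContDiff ℝ 1 w := by
    rw [hweq]
    exact hu.comp (pf_red_R a).contDiff
  have hwc : HasCompactSupport w := by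
    rw [hweq]
    exact hc.comp_homeomorph (pf_red_R a).toHomeomorph
  set P : E n → ℝ := fun x => (u x + w x) / 2 with hP
  set Q : E n → ℝ := fun x => (u x - w x) / 2 with hQ
  have hPd : ContDiff ℝ 1 P := (hu.add hwd).div_const 2
  have hQd : ContDiff ℝ 1 Q := (hu.sub hwd).div_const 2
  have hPc : HasCompactSupport P :=
    (hc.add hwc).comp_left (g := fun t : ℝ => t / 2) (by simp)
  have hQc : HasCompactSupport Q :=
    (hc.sub hwc).comp_left (g := fun t : ℝ => t / 2) (by simp)
  have hen : en n α w = en n α u := by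
    unfold en
    rw [← pf_red_cov a ha (fun x => wt n α x * ‖fderiv ℝ u x‖ ^ 2)]
    refine integral_congr_ae (Filter.Eventually.of_forall fun x => ?_)
    simp only [hw, pf_red_fderiv a ha u hu, pf_red_wt a ha]
  have hms : ms n α w = ms n α u := by
    unfold ms
    rw [← pf_red_cov a ha (fun x => wt n (α - 1) x * u x ^ 2)]
    refine integral_congr_ae (Filter.Eventually.of_forall fun x => ?_)
    simp only [hw, pf_red_wt a ha]
  have hcn : ∫ x, wt n (α - 1) x * w x = ∫ x, wt n (α - 1) x * u x := by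
    rw [← pf_red_cov a ha (fun x => wt n (α - 1) x * u x)]
    refine integral_congr_ae (Filter.Eventually.of_forall fun x => ?_)
    simp only [hw, pf_red_wt a ha]
  have hfP : ∀ x, fderiv ℝ P x = (1 / 2 : ℝ) • (fderiv ℝ u x + fderiv ℝ w x) := by
    intro x
    have hux := (hu.differentiable (by norm_num) x).hasFDerivAt
    have hwx := (hwd.differentiable (by norm_num) x).hasFDerivAt
    have h3 := ((hux.add hwx).const_smul (1 / 2 : ℝ)).fderiv
    rw [← h3]
    congr 1
    funext y
    simp only [hP, Pi.smul_apply, Pi.add_apply, smul_eq_mul]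
    ring
  have hfQ : ∀ x, fderiv ℝ Q x = (1 / 2 : ℝ) • (fderiv ℝ u x - fderiv ℝ w x) := by
    intro x
    have hux := (hu.differentiable (by norm_num) x).hasFDerivAt
    have hwx := (hwd.differentiable (by norm_num) x).hasFDerivAt
    have h3 := ((hux.sub hwx).const_smul (1 / 2 : ℝ)).fderiv
    rw [← h3]
    congr 1
    funext y
    simp only [hQ, Pi.smul_apply, Pi.sub_apply, smul_eq_mul]
    ring
  have hE : en n α P + en n α Q = en n α u := by
    have e1 : en n α P + en n α Q = ∫ x, (wt n α x * ‖fderiv ℝ P x‖ ^ 2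
        + wt n α x * ‖fderiv ℝ Q x‖ ^ 2) :=
      (integral_add (pf_red_i1 α P hPd hPc) (pf_red_i1 α Q hQd hQc)).symm
    have e2 : en n α u + en n α w = ∫ x, (wt n α x * ‖fderiv ℝ u x‖ ^ 2
        + wt n α x * ‖fderiv ℝ w x‖ ^ 2) :=
      (integral_add (pf_red_i1 α u hu hc) (pf_red_i1 α w hwd hwc)).symm
    have e3 : ∫ x, (wt n α x * ‖fderiv ℝ P x‖ ^ 2 + wt n α x * ‖fderiv ℝ Q x‖ ^ 2)
        = ∫ x, (wt n α x * ‖fderiv ℝ u x‖ ^ 2 + wt n α x * ‖fderiv ℝ w x‖ ^ 2) / 2 := by
      refine integral_congr_ae (Filter.Eventually.of_forall fun x => ?_)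
      have h4 := pf_red_par (fderiv ℝ u x) (fderiv ℝ w x)
      simp only [hfP, hfQ]
      linear_combination (wt n α x) * h4
    rw [e1, e3, integral_div, ← e2, hen]
    ring
  have hM : ms n α P + ms n α Q = ms n α u := by
    have e1 : ms n α P + ms n α Q = ∫ x, (wt n (α - 1) x * P x ^ 2
        + wt n (α - 1) x * Q x ^ 2) :=
      (integral_add (pf_red_i2 (α - 1) P hPd.continuous hPc)
        (pf_red_i2 (α - 1) Q hQd.continuous hQc)).symm
    have e2 : ms n α u + ms n α w = ∫ x, (wt n (α - 1) x * u x ^ 2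
        + wt n (α - 1) x * w x ^ 2) :=
      (integral_add (pf_red_i2 (α - 1) u hu.continuous hc)
        (pf_red_i2 (α - 1) w hwd.continuous hwc)).symm
    have e3 : ∫ x, (wt n (α - 1) x * P x ^ 2 + wt n (α - 1) x * Q x ^ 2)
        = ∫ x, (wt n (α - 1) x * u x ^ 2 + wt n (α - 1) x * w x ^ 2) / 2 := by
      refine integral_congr_ae (Filter.Eventually.of_forall fun x => ?_)
      simp only [hP, hQ]
      ring
    rw [e1, e3, integral_div, ← e2, hms]
    ring
  have hQ0 : ∀ x, inner ℝ a x = 0 → Q x = 0 := by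
    intro x hx
    have : Rf a x = x := by
      unfold Rf
      rw [hx]
      simp
    simp only [hQ, hw, this]
    simp
  have hodd := h1 n α hα a ha Q hQd hQc hQ0
  have hms0 : 0 ≤ ms n α Q := by
    unfold ms
    apply integral_nonneg
    intro x
    have : 0 ≤ wt n (α - 1) x := by
      unfold wt
      positivity
    positivity
  refine ⟨?_, ?_⟩
  · change en n α P - C * ms n α P ≤ en n α u - C * ms n α u
    rw [← hE, ← hM]
    nlinarith [mul_le_mul_of_nonneg_right hC hms0]
  · have e4 : ∫ x, wt n (α - 1) x * ((u x + w x) / 2)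
        = ∫ x, (wt n (α - 1) x * u x + wt n (α - 1) x * w x) / 2 := by
      refine integral_congr_ae (Filter.Eventually.of_forall fun x => ?_)
      ring
    rw [e4, integral_div, integral_add (pf_red_i3 (α - 1) u hu.continuous hc)
      (pf_red_i3 (α - 1) w hwd.continuous hwc), hcn]
    ring

end Pool.Agent.H212WH
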