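import Pool.Agent.H212WH.W0

set_option autoImplicit false

namespace Pool.Agent.H212WH

open MeasureTheory Set Filter Topology Metric
open scoped ContDiff

lemma pf_u1_pos {n : ℕ} (x : E n) : 0 < 1 + ‖x‖ ^ 2 := by positivity

lemma pf_u1_hasF {n : ℕ} (p : ℝ) (x : E n) :
    HasFDerivAt (wt n p) ((p * (1 + ‖x‖ ^ 2) ^ (p - 1)) • ((2 : ℝ) • (innerSL ℝ x))) x := by
  have h1 : HasFDerivAt (fun y : E n => 1 + ‖y‖ ^ 2) ((2 : ℝ) • (innerSL ℝ x)) x := by
    have := (hasStrictFDerivAt_norm_sq x).hasFDerivAt.const_add (1 : ℝ)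
    simpa [two_smul] using this
  have h2 := h1.rpow_const (p := p) (Or.inl (pf_u1_pos x).ne')
  exact h2

lemma pf_u1_smooth (n : ℕ) (p : ℝ) : ContDiff ℝ ∞ (wt n p) := by
  unfold wt
  apply ContDiff.rpow_const_of_ne
  · exact contDiff_const.add (contDiff_norm_sq ℝ)
  · intro x
    exact (pf_u1_pos x).ne'

lemma pf_u1_normF {n : ℕ} (α : ℝ) (hα : 1 < α) (x : E n) :
    wt n α x * ‖fderiv ℝ (wt n (1 - α)) x‖ ^ 2 = 4 * (α - 1) ^ 2 * (wt n (1 - α) x - wt n (-α) x) := by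
  have hs := pf_u1_pos x
  have h1 : ‖fderiv ℝ (wt n (1 - α)) x‖ = 2 * (α - 1) * (1 + ‖x‖ ^ 2) ^ (-α) * ‖x‖ := by
    rw [(pf_u1_hasF (1 - α) x).fderiv, norm_smul, norm_smul, innerSL_apply_norm, Real.norm_eq_abs, abs_mul,
      Real.norm_eq_abs, abs_of_pos (by norm_num : (0:ℝ) < 2), abs_of_pos (Real.rpow_pos_of_pos hs _),
      abs_of_neg (by linarith : 1 - α < 0)]
    have : (1 - α - 1) = -α := by ring
    rw [this]
    ring
  have hx : ‖x‖ ^ 2 = (1 + ‖x‖ ^ 2) - 1 := by ring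
  rw [h1]
  unfold wt
  set s := 1 + ‖x‖ ^ 2 with hsdef
  have e1 : s ^ α * (s ^ (-α)) ^ 2 = s ^ (-α) := by
    rw [← Real.rpow_natCast, ← Real.rpow_mul hs.le, ← Real.rpow_add hs]
    congr 1
    push_cast
    ring
  have e2 : s ^ (-α) * s = s ^ (1 - α) := by
    rw [show (1 - α) = -α + 1 by ring, Real.rpow_add hs, Real.rpow_one]
  calc s ^ α * (2 * (α - 1) * s ^ (-α) * ‖x‖) ^ 2
      = 4 * (α - 1) ^ 2 * (s ^ α * (s ^ (-α)) ^ 2) * ‖x‖ ^ 2 := by ring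
    _ = 4 * (α - 1) ^ 2 * (s ^ (-α) * s - s ^ (-α)) := by rw [e1, hx]; ring
    _ = _ := by rw [e2]

lemma pf_u1_mass {n : ℕ} (α : ℝ) (x : E n) :
    wt n (α - 1) x * (wt n (1 - α) x) ^ 2 = wt n (1 - α) x := by
  have hs := pf_u1_pos x
  unfold wt
  generalize 1 + ‖x‖ ^ 2 = s at *
  rw [← Real.rpow_natCast, ← Real.rpow_mul hs.le, ← Real.rpow_add hs]
  congr 1
  push_cast
  ring

theorem pf_u1 (h1 : S_Ip) (h2 : S_cut) : S_u1 := by
  intro n α hn hα c hc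
  have hn' : (3 : ℝ) ≤ n := by exact_mod_cast hn
  have hα1 : 1 < α := by linarith
  obtain ⟨hi1, hp1, he1⟩ := h1 n (1 - α) (by omega) (by linarith)
  obtain ⟨hi2, -, -⟩ := h1 n (-α) (by omega) (by linarith)
  have hen : (fun x => wt n α x * ‖fderiv ℝ (wt n (1 - α)) x‖ ^ 2) =
      fun x => 4 * (α - 1) ^ 2 * (wt n (1 - α) x - wt n (-α) x) := by
    funext x
    exact pf_u1_normF α hα1 x
  have hms : (fun x => wt n (α - 1) x * (wt n (1 - α) x) ^ 2) = wt n (1 - α) := by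
    funext x
    exact pf_u1_mass α x
  have hmsv : ms n α (wt n (1 - α)) = Ip n (1 - α) := by
    unfold ms Ip
    rw [hms]
  have henv : en n α (wt n (1 - α)) = 4 * (α - 1) ^ 2 * (Ip n (1 - α) - Ip n (-α)) := by
    unfold en Ip
    rw [hen, integral_const_mul, integral_sub hi1 hi2]
  refine h2 n α (wt n (1 - α)) (by omega) (pf_u1_smooth n _) ?_ ?_ ?_ ?_ c ?_
  · rw [hen]
    exact (hi1.sub hi2).const_mul _
  · rw [hms]
    exact hi1
  · intro h
    exfalso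
    linarith
  · rw [hmsv]
    exact hp1
  · rw [hmsv, henv]
    have he : (1 - α - 1) = -α := by ring
    rw [he] at he1
    have h3 : 4 * (α - 1) ^ 2 * (Ip n (1 - α) - Ip n (-α)) = 2 * n * (α - 1) * Ip n (1 - α) := by
      have : 2 * (α - 1) * Ip n (-α) = (2 * (α - 1) - n) * Ip n (1 - α) := by linarith
      calc 4 * (α - 1) ^ 2 * (Ip n (1 - α) - Ip n (-α))
          = 2 * (α - 1) * (2 * (α - 1) * Ip n (1 - α) - 2 * (α - 1) * Ip n (-α)) := by ring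
        _ = 2 * (α - 1) * (2 * (α - 1) * Ip n (1 - α) - (2 * (α - 1) - n) * Ip n (1 - α)) := by rw [this]
        _ = _ := by ring
    rw [h3]
    exact mul_lt_mul_of_pos_right hc hp1

end Pool.Agent.H212WH
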