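import Pool.Agent.H212WH.W0

set_option autoImplicit false

namespace Pool.Agent.H212WH

open MeasureTheory Set Filter Topology Metric
open scoped ContDiff

/- PLAIN PROOF.
b0 = (n+2 alpha-2)/4 > 0. Choose b > b0 with 4 b^2 < c (possible since 4 b0^2 = (n+2 alpha-2)^2/4 < c). f = wt n (-b), smooth; norm(fderiv f x) = 2 b s^(-b-1) norm x, s = 1+norm x^2.
wt n alpha x * norm(fderiv f x)^2 = 4 b^2 s^(alpha-2b-2) norm x^2 <= 4 b^2 s^(alpha-1-2b) = 4 b^2 wt n (alpha-1) x * f^2. Since alpha-1-2b < -n/2, S_Ip gives integrability and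
ms f = Ip(alpha-1-2b) > 0; en f <= 4 b^2 ms f < c ms f. Apply S_cut (no constraint as alpha > -(n-2)/2).
-/
theorem pf_u2_pos {n : ℕ} (x : E n) : 0 < 1 + ‖x‖ ^ 2 := by positivity

theorem pf_u2_smooth (n : ℕ) (p : ℝ) : ContDiff ℝ ∞ (wt n p) := by
  unfold wt
  exact (contDiff_const.add (contDiff_norm_sq ℝ)).rpow_const_of_ne fun x => (pf_u2_pos x).ne'

theorem pf_u2_fderiv (n : ℕ) (p : ℝ) (x : E n) :
    ‖fderiv ℝ (wt n p) x‖ = 2 * |p| * (1 + ‖x‖ ^ 2) ^ (p - 1) * ‖x‖ := by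
  have h1 : HasFDerivAt (fun x : E n => 1 + ‖x‖ ^ 2) (2 • innerSL ℝ x) x :=
    (hasStrictFDerivAt_norm_sq x).hasFDerivAt.const_add 1
  have h2 := h1.rpow_const (p := p) (Or.inl (pf_u2_pos x).ne')
  have h3 : HasFDerivAt (wt n p) ((p * (1 + ‖x‖ ^ 2) ^ (p - 1)) • (2 • innerSL ℝ x)) x := h2
  rw [h3.fderiv, norm_smul, norm_mul, Real.norm_eq_abs,
    Real.norm_of_nonneg (Real.rpow_nonneg (pf_u2_pos x).le _), two_smul, ← two_smul ℝ,
    norm_smul, innerSL_apply_norm]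
  norm_num
  ring

theorem pf_u2 (h1 : S_Ip) (h2 : S_cut) : S_u2 := by
  intro n α hn hα c hc
  have hn' : (3 : ℝ) ≤ n := by exact_mod_cast hn
  set b0 : ℝ := ((n : ℝ) + 2 * α - 2) / 4 with hb0
  have hb0pos : 0 < b0 := by
    rw [hb0]
    linarith
  have hc' : (2 * b0) ^ 2 < c := by
    have : (2 * b0) ^ 2 = ((n : ℝ) + 2 * α - 2) ^ 2 / 4 := by
      rw [hb0]
      ring
    rw [this]
    exact hc
  have hc0 : 0 < c := lt_of_le_of_lt (sq_nonneg _) hc'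
  have hsq : 2 * b0 < Real.sqrt c := Real.lt_sqrt_of_sq_lt hc'
  set b : ℝ := (b0 + Real.sqrt c / 2) / 2 with hb
  have hb1 : b0 < b := by
    rw [hb]
    linarith
  have hb2 : 2 * b < Real.sqrt c := by
    rw [hb]
    linarith
  have hbpos : 0 < b := hb0pos.trans hb1
  have hb3 : 4 * b ^ 2 < c := by
    have h3 : (2 * b) ^ 2 < (Real.sqrt c) ^ 2 := pow_lt_pow_left₀ hb2 (by linarith) (by norm_num)
    rw [Real.sq_sqrt hc0.le] at h3
    linarith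
  have hp : α - 1 - 2 * b < -(n : ℝ) / 2 := by
    have : b0 = ((n : ℝ) + 2 * α - 2) / 4 := hb0
    linarith
  obtain ⟨i1, i2, -⟩ := h1 n (α - 1 - 2 * b) (by omega) hp
  have hsm := pf_u2_smooth n (-b)
  have hms : ∀ x : E n, wt n (α - 1) x * wt n (-b) x ^ 2 = wt n (α - 1 - 2 * b) x := by
    intro x
    unfold wt
    rw [← Real.rpow_mul_natCast (pf_u2_pos x).le, ← Real.rpow_add (pf_u2_pos x)]
    congr 1
    push_cast
    ring
  have hen : ∀ x : E n, wt n α x * ‖fderiv ℝ (wt n (-b)) x‖ ^ 2 ≤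
      4 * b ^ 2 * wt n (α - 1 - 2 * b) x := by
    intro x
    rw [pf_u2_fderiv, abs_neg, abs_of_pos hbpos]
    have hs := pf_u2_pos x
    have e1 : ((1 + ‖x‖ ^ 2) ^ (-b - 1)) ^ 2 = (1 + ‖x‖ ^ 2) ^ (2 * (-b - 1)) := by
      rw [← Real.rpow_natCast, ← Real.rpow_mul hs.le]
      congr 1
      push_cast
      ring
    have e2 : (1 + ‖x‖ ^ 2) ^ α * (1 + ‖x‖ ^ 2) ^ (2 * (-b - 1)) * (1 + ‖x‖ ^ 2) =
        (1 + ‖x‖ ^ 2) ^ (α - 1 - 2 * b) := by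
      have e3 : (1 + ‖x‖ ^ 2) ^ α * (1 + ‖x‖ ^ 2) ^ (2 * (-b - 1)) * (1 + ‖x‖ ^ 2) =
          (1 + ‖x‖ ^ 2) ^ α * (1 + ‖x‖ ^ 2) ^ (2 * (-b - 1)) * (1 + ‖x‖ ^ 2) ^ (1 : ℝ) := by
        rw [Real.rpow_one]
      rw [e3, ← Real.rpow_add hs, ← Real.rpow_add hs]
      congr 1
      ring
    unfold wt
    have e4 : 0 ≤ (1 + ‖x‖ ^ 2) ^ α * (1 + ‖x‖ ^ 2) ^ (2 * (-b - 1)) :=
      mul_nonneg (Real.rpow_nonneg hs.le _) (Real.rpow_nonneg hs.le _)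
    calc (1 + ‖x‖ ^ 2) ^ α * (2 * b * (1 + ‖x‖ ^ 2) ^ (-b - 1) * ‖x‖) ^ 2
        = 4 * b ^ 2 * ((1 + ‖x‖ ^ 2) ^ α * ((1 + ‖x‖ ^ 2) ^ (-b - 1)) ^ 2 * ‖x‖ ^ 2) := by ring
      _ = 4 * b ^ 2 * ((1 + ‖x‖ ^ 2) ^ α * (1 + ‖x‖ ^ 2) ^ (2 * (-b - 1)) * ‖x‖ ^ 2) := by
          rw [e1]
      _ ≤ 4 * b ^ 2 * ((1 + ‖x‖ ^ 2) ^ α * (1 + ‖x‖ ^ 2) ^ (2 * (-b - 1)) * (1 + ‖x‖ ^ 2)) := by
          refine mul_le_mul_of_nonneg_left (mul_le_mul_of_nonneg_left ?_ e4) (by positivity)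
          linarith
      _ = 4 * b ^ 2 * (1 + ‖x‖ ^ 2) ^ (α - 1 - 2 * b) := by rw [e2]
  have hcw : ∀ p : ℝ, Continuous (wt n p) := fun p => (pf_u2_smooth n p).continuous
  have hcd : Continuous (fderiv ℝ (wt n (-b))) := hsm.continuous_fderiv (by simp)
  have hI1 : Integrable (fun x => wt n α x * ‖fderiv ℝ (wt n (-b)) x‖ ^ 2) := by
    refine (i1.const_mul (4 * b ^ 2)).mono' ?_ (Filter.Eventually.of_forall fun x => ?_)
    · exact ((hcw α).mul (hcd.norm.pow 2)).aestronglyMeasurable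
    · rw [Real.norm_of_nonneg]
      · exact hen x
      · exact mul_nonneg (Real.rpow_nonneg (pf_u2_pos x).le _) (by positivity)
  have hI2 : Integrable (fun x => wt n (α - 1) x * wt n (-b) x ^ 2) := by
    simp only [hms]
    exact i1
  have hmseq : ms n α (wt n (-b)) = Ip n (α - 1 - 2 * b) := by
    unfold ms Ip
    simp only [hms]
  refine h2 n α (wt n (-b)) (by omega) hsm hI1 hI2 (fun h => absurd h (by linarith)) ?_ c ?_
  · rw [hmseq]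
    exact i2
  · rw [hmseq]
    have e5 : en n α (wt n (-b)) ≤ 4 * b ^ 2 * Ip n (α - 1 - 2 * b) := by
      unfold en Ip
      rw [← integral_const_mul]
      exact integral_mono hI1 (i1.const_mul _) hen
    exact lt_of_le_of_lt e5 (mul_lt_mul_of_pos_right hb3 i2)

end Pool.Agent.H212WH
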