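import Mathlib

/-!
# Best constants in weighted Hardy inequalities: definitions and statements (blueprint)
-/

set_option autoImplicit false

namespace Pool.Agent.H212WH

open MeasureTheory Set Filter Topology Metric
open scoped ContDiff

/-- Euclidean space. -/
abbrev E (n : ℕ) : Type := EuclideanSpace ℝ (Fin n)

/-- The weight `(1 + |x|²) ^ p`. -/
noncomputable def wt (n : ℕ) (p : ℝ) (x : E n) : ℝ := (1 + ‖x‖ ^ 2) ^ p

/-- The energy `∫ (1 + |x|²) ^ α |∇u|²`. -/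
noncomputable def en (n : ℕ) (α : ℝ) (u : E n → ℝ) : ℝ :=
  ∫ x, wt n α x * ‖fderiv ℝ u x‖ ^ 2

/-- The mass `∫ (1 + |x|²) ^ (α - 1) u²`. -/
noncomputable def ms (n : ℕ) (α : ℝ) (u : E n → ℝ) : ℝ :=
  ∫ x, wt n (α - 1) x * u x ^ 2

/-- Admissible functions: nonzero, smooth, compactly supported, and orthogonal to the constants
when `α < -(n-2)/2`. -/
def Adm (n : ℕ) (α : ℝ) (u : E n → ℝ) : Prop :=
  ContDiff ℝ ∞ u ∧ HasCompactSupport u ∧ u ≠ 0 ∧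
    (α < -((n : ℝ) - 2) / 2 → ∫ x, wt n (α - 1) x * u x = 0)

/-- The constant. -/
noncomputable def Cst (n : ℕ) (α : ℝ) : ℝ :=
  if α ≤ -(n : ℝ) then -2 * α
  else if α ≤ -((n : ℝ) + 2) / 2 then -4 * α - 2 * n
  else if α ≤ ((n : ℝ) + 2) / 2 then ((n : ℝ) + 2 * α - 2) ^ 2 / 4
  else 2 * n * (α - 1)

/-- Reflection in the hyperplane orthogonal to the unit vector `a`. -/
noncomputable def Rf {n : ℕ} (a x : E n) : E n := x - (2 * inner ℝ a x) • a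

/-- One-dimensional weights. -/
noncomputable def V1 (n : ℕ) (α : ℝ) (r : ℝ) : ℝ := (1 + r ^ 2) ^ (α - 1) * r ^ (n - 1)
noncomputable def W1 (n : ℕ) (α : ℝ) (r : ℝ) : ℝ := (1 + r ^ 2) ^ α * r ^ (n - 1)

/-- `∫ (1 + |x|²) ^ p`. -/
noncomputable def Ip (n : ℕ) (p : ℝ) : ℝ := ∫ x, wt n p x

/-- integration by parts with the field `x` -/
def S_ibp : Prop := ∀ (n : ℕ) (g ρ : E n → ℝ), ContDiff ℝ 1 g → HasCompactSupport g →
  ContDiff ℝ 1 ρ →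
  ∫ x, ρ x * fderiv ℝ g x x = - ∫ x, g x * (n * ρ x + fderiv ℝ ρ x x)

/-- ground state inequality with `(1+|x|²)^(-β)` -/
def S_gs : Prop := ∀ (n : ℕ) (α β : ℝ) (u : E n → ℝ), ContDiff ℝ 1 u → HasCompactSupport u →
  ∫ x, wt n (α - 1) x * (2 * β * (n + 2 * (α - 1 - β)) -
    4 * β * (α - 1 - β) / (1 + ‖x‖ ^ 2)) * u x ^ 2 ≤ en n α u

/-- lower bound without constraint -/
def S_low1 : Prop := ∀ (n : ℕ) (α : ℝ), 3 ≤ n → -((n : ℝ) - 2) / 2 < α → ∀ u : E n → ℝ,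
  ContDiff ℝ 1 u → HasCompactSupport u → Cst n α * ms n α u ≤ en n α u

/-- lower bound for functions vanishing on a hyperplane -/
def S_odd : Prop := ∀ (n : ℕ) (α : ℝ), α < 0 → ∀ a : E n, ‖a‖ = 1 → ∀ u : E n → ℝ,
  ContDiff ℝ 1 u → HasCompactSupport u → (∀ x, inner ℝ a x = 0 → u x = 0) →
  -2 * α * ms n α u ≤ en n α u

/-- averaging over a reflection does not increase `en - C ms`, and keeps `∫ v u` -/
def S_red : Prop := ∀ (n : ℕ) (α C : ℝ), α < 0 → C ≤ -2 * α → ∀ a : E n, ‖a‖ = 1 →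
  ∀ u : E n → ℝ, ContDiff ℝ 1 u → HasCompactSupport u →
  en n α (fun x => (u x + u (Rf a x)) / 2) - C * ms n α (fun x => (u x + u (Rf a x)) / 2) ≤
    en n α u - C * ms n α u ∧
  ∫ x, wt n (α - 1) x * ((u x + u (Rf a x)) / 2) = ∫ x, wt n (α - 1) x * u x

/-- iterated reflection averages become nearly radial -/
def S_avg : Prop := ∀ (n : ℕ) (u : E n → ℝ) (P : (E n → ℝ) → Prop), ContDiff ℝ 1 u →
  HasCompactSupport u → P u →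
  (∀ v : E n → ℝ, P v → ∀ a : E n, ‖a‖ = 1 → P (fun x => (v x + v (Rf a x)) / 2)) →
  ∀ δ : ℝ, 0 < δ → ∃ v : E n → ℝ, P v ∧ ∀ x y : E n, ‖x‖ = ‖y‖ → |v x - v y| ≤ δ

/-- polar coordinates -/
def S_pol : Prop := ∀ (n : ℕ) (f : E n → ℝ), 1 ≤ n → Continuous f → HasCompactSupport f →
  Continuous (fun z : sphere (0 : E n) 1 => ∫ r in Ioi (0 : ℝ), r ^ (n - 1) * f (r • (z : E n))) ∧
  ∫ x, f x = ∫ z : sphere (0 : E n) 1, (∫ r in Ioi (0 : ℝ), r ^ (n - 1) * f (r • (z : E n)))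
    ∂((volume : Measure (E n)).toSphere)

/-- the one-dimensional inequality -/
def S_1d : Prop := ∀ (n : ℕ) (α : ℝ), 3 ≤ n → α < -((n : ℝ) - 2) / 2 → ∀ g : ℝ → ℝ,
  ContDiff ℝ 1 g → HasCompactSupport g →
  Cst n α * ((∫ r in Ioi (0 : ℝ), V1 n α r * g r ^ 2) -
    (∫ r in Ioi (0 : ℝ), V1 n α r * g r) ^ 2 / ∫ r in Ioi (0 : ℝ), V1 n α r) ≤
    ∫ r in Ioi (0 : ℝ), W1 n α r * deriv g r ^ 2

/-- lower bound for nearly radial functions -/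
def S_nr : Prop := ∀ (n : ℕ) (α : ℝ), 3 ≤ n → α < -((n : ℝ) - 2) / 2 → ∃ K : ℝ,
  ∀ (v : E n → ℝ) (δ : ℝ), ContDiff ℝ 1 v → HasCompactSupport v → 0 ≤ δ →
  ∫ x, wt n (α - 1) x * v x = 0 → (∀ x y : E n, ‖x‖ = ‖y‖ → |v x - v y| ≤ δ) →
  Cst n α * ms n α v - K * δ ^ 2 ≤ en n α v

/-- lower bound with the constraint -/
def S_low2 : Prop := ∀ (n : ℕ) (α : ℝ), 3 ≤ n → α < -((n : ℝ) - 2) / 2 → ∀ u : E n → ℝ,
  ContDiff ℝ 1 u → HasCompactSupport u → ∫ x, wt n (α - 1) x * u x = 0 →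
  Cst n α * ms n α u ≤ en n α u

/-- divergence theorem for integrable functions -/
def S_ibp2 : Prop := ∀ (n : ℕ) (ρ : E n → ℝ), ContDiff ℝ 1 ρ → Integrable ρ →
  Integrable (fun x => fderiv ℝ ρ x x) → ∫ x, (n * ρ x + fderiv ℝ ρ x x) = 0

/-- the integrals of the weights -/
def S_Ip : Prop := ∀ (n : ℕ) (p : ℝ), 1 ≤ n → p < -(n : ℝ) / 2 →
  Integrable (wt n p) ∧ 0 < Ip n p ∧ (n + 2 * p) * Ip n p = 2 * p * Ip n (p - 1)

/-- cut-off: smooth functions of finite energy can be used as test functions -/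
def S_cut : Prop := ∀ (n : ℕ) (α : ℝ) (f : E n → ℝ), 1 ≤ n → ContDiff ℝ ∞ f →
  Integrable (fun x => wt n α x * ‖fderiv ℝ f x‖ ^ 2) →
  Integrable (fun x => wt n (α - 1) x * f x ^ 2) →
  (α < -((n : ℝ) - 2) / 2 → Integrable (fun x => wt n (α - 1) x * f x) ∧
    ∫ x, wt n (α - 1) x * f x = 0) →
  0 < ms n α f → ∀ c : ℝ, en n α f < c * ms n α f →
  ∃ u, Adm n α u ∧ en n α u < c * ms n α u

/-- upper bounds, one for each range -/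
def S_u1 : Prop := ∀ (n : ℕ) (α : ℝ), 3 ≤ n → ((n : ℝ) + 2) / 2 < α → ∀ c : ℝ,
  2 * n * (α - 1) < c → ∃ u, Adm n α u ∧ en n α u < c * ms n α u
def S_u2 : Prop := ∀ (n : ℕ) (α : ℝ), 3 ≤ n → -((n : ℝ) - 2) / 2 < α → ∀ c : ℝ,
  ((n : ℝ) + 2 * α - 2) ^ 2 / 4 < c → ∃ u, Adm n α u ∧ en n α u < c * ms n α u
def S_u3 : Prop := ∀ (n : ℕ) (α : ℝ), 3 ≤ n → α < -((n : ℝ) - 2) / 2 →
  -((n : ℝ) + 2) / 2 ≤ α → ∀ c : ℝ,
  ((n : ℝ) + 2 * α - 2) ^ 2 / 4 < c → ∃ u, Adm n α u ∧ en n α u < c * ms n α u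
def S_u4 : Prop := ∀ (n : ℕ) (α : ℝ), 3 ≤ n → α < -((n : ℝ) + 2) / 2 → ∀ c : ℝ,
  -4 * α - 2 * n < c → ∃ u, Adm n α u ∧ en n α u < c * ms n α u
def S_u5 : Prop := ∀ (n : ℕ) (α : ℝ), 3 ≤ n → α ≤ -(n : ℝ) → ∀ c : ℝ,
  -2 * α < c → ∃ u, Adm n α u ∧ en n α u < c * ms n α u

/-- the main theorem -/
def S_top : Prop := ∀ (n : ℕ) (α : ℝ), 3 ≤ n → α ≠ -((n : ℝ) - 2) / 2 →
  IsGLB {c : ℝ | ∃ u, Adm n α u ∧ c = en n α u / ms n α u} (Cst n α)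

end Pool.Agent.H212WH
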